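import Pool.Agent.Helper78.W3.StD

/-!
# Project TH (levels `2·3^n`): rows of Hecke operators and multipliers of the relations

The term `(k, a, b, c, d)` is `k` times the operator of `(a 3b; 3c d)`. The five plane functions are the paths `0 → ∞`, `1 → ∞`, `-1 → ∞`, `0 → 1/2`, `0 → -1/2`.
-/

set_option autoImplicit false

namespace Pool.Agent.Helper93.TH3

open Pool.Agent.Helper78.W3 (Tm)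

/-- The rows of `T_5`. -/
def T5T : Fin 5 → Fin 5 → List Tm
  | 0, 0 => [(1, 1, 0, -2, 5), (1, 1, 0, 0, 5), (-1, 2, 1, -2, -4), (-1, 4, 1, -2, -2), (1, 5, -1, 0, 1), (1, 5, 0, 0, 1)]
  | 0, 1 => [(-1, 1, 0, -2, 5), (1, 5, -3, 0, 1), (1, 5, -2, 0, 1)]
  | 0, 2 => [(1, 2, 1, -2, -4), (1, 4, 1, -2, -2), (1, 5, 1, 0, 1)]
  | 0, 3 => [(1, 1, 0, -4, 5), (-1, 5, -1, 0, 1), (1, 14, -1, -2, 2)]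
  | 0, 4 => [(1, 1, 0, 2, 5), (1, 1, 0, 4, 5), (1, 2, 1, -2, -4)]
  | 1, 0 => [(1, 2, -1, 2, -4), (-1, 2, 1, -2, -4), (1, 5, -1, 0, 1), (1, 5, 0, 0, 1), (-1, 5, 0, 2, 1), (1, 8, 3, 2, 8)]
  | 1, 1 => [(-1, 2, -1, 2, -4), (1, 5, -2, 0, 1)]
  | 1, 2 => [(1, 1, 2, 0, 5), (1, 2, 1, -2, -4), (1, 5, 0, 2, 1), (1, 5, 1, 0, 1), (1, 5, 2, 0, 1), (-1, 8, 3, 2, 8)]
  | 1, 3 => [(1, 4, -1, 2, -2), (-1, 5, -1, 0, 1)]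
  | 1, 4 => [(1, 2, 1, -2, -4), (-1, 4, -1, 2, -2), (-1, 8, 3, 2, 8), (-1, 16, 1, 6, 4)]
  | 2, 0 => [(1, 5, -1, 0, 1), (1, 8, -3, -2, 8), (1, 20, -5, -6, 14), (-1, 20, 5, -2, -4)]
  | 2, 1 => [(1, 1, -2, 0, 5), (1, 5, -3, 0, 1), (1, 5, -2, 0, 1), (1, 7, -4, -2, 11), (-1, 8, -3, -2, 8), (-1, 20, -5, -6, 14)]
  | 2, 2 => [(1, 5, 0, 0, 1), (1, 5, 1, 0, 1), (-1, 7, 3, -2, -7), (1, 20, 5, -2, -4)]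
  | 2, 3 => [(-1, 4, 1, -2, -2), (-1, 5, -1, 0, 1), (-1, 5, 0, -2, 1), (-1, 8, -3, -2, 8), (1, 14, -1, -2, 2), (-1, 20, -5, -6, 14)]
  | 2, 4 => [(1, 5, 0, 0, 1), (1, 20, 5, -2, -4)]
  | 3, 0 => [(1, 1, 0, -2, 5), (1, 1, 0, 0, 5), (1, 4, -1, 2, -2), (-1, 4, 1, -2, -2), (1, 8, 1, 6, 8), (1, 14, 3, 10, 20)]
  | 3, 1 => [(-1, 1, 0, -2, 5), (1, 2, -1, 2, -4)]
  | 3, 2 => [(-1, 1, 1, 0, 5), (-1, 2, -1, 2, -4), (1, 4, 1, -2, -2), (-1, 4, 3, 2, 16), (-1, 8, 1, 6, 8), (-1, 14, 3, 10, 20)]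
  | 3, 3 => [(1, 1, 0, -4, 5), (-1, 4, -1, 2, -2)]
  | 3, 4 => [(1, 1, 0, 2, 5), (1, 1, 0, 4, 5), (1, 4, 1, -2, -2), (1, 5, 0, 4, 1), (-1, 8, 1, 6, 8), (-1, 14, 3, 10, 20)]
  | 4, 0 => [(-1, 1, -1, 0, 5), (1, 1, 0, -2, 5), (1, 1, 0, 0, 5), (1, 5, 0, 0, 1), (1, 8, -1, -6, 8), (1, 20, 5, -2, -4)]
  | 4, 1 => [(-1, 1, 0, -2, 5), (-1, 2, 1, -2, -4), (-1, 4, -3, -2, 16), (-1, 8, -1, -6, 8)]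
  | 4, 2 => [(1, 2, 1, -2, -4), (1, 4, 1, -2, -2), (-1, 5, 0, 0, 1), (-1, 20, 5, -2, -4)]
  | 4, 3 => [(1, 1, -1, 0, 5), (1, 1, 0, -4, 5), (1, 5, 0, -4, 1), (-1, 8, -1, -6, 8)]
  | 4, 4 => [(1, 1, 0, 2, 5), (1, 1, 0, 4, 5), (-1, 5, 0, 0, 1), (-1, 20, 5, -2, -4)]

/-- The rows of `T_7`. -/
def T7T : Fin 5 → Fin 5 → List Tm
  | 0, 0 => [(1, 1, 0, -2, 7), (1, 1, 0, 0, 7), (-1, 2, -1, 2, -2), (-1, 2, 1, -2, -2), (-1, 4, 1, -6, -10), (1, 7, -2, 0, 1), (1, 7, -1, 0, 1), (1, 7, 0, 0, 1), (1, 8, -1, -2, 4), (-1, 10, 3, -2, -4)]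
  | 0, 1 => [(-1, 1, 0, -2, 7), (1, 2, -1, -2, 16), (1, 2, -1, 2, -2), (1, 7, -4, 0, 1), (1, 7, -3, 0, 1), (-1, 8, -1, -2, 4)]
  | 0, 2 => [(1, 4, 1, -6, -10), (1, 7, 1, 0, 1), (1, 7, 2, 0, 1), (1, 10, 3, -2, -4)]
  | 0, 3 => [(1, 1, 0, -8, 7), (1, 1, 0, -6, 7), (1, 1, 0, -4, 7), (1, 2, -1, 2, -2), (-1, 7, -2, 0, 1), (-1, 7, -1, 0, 1), (-1, 8, -1, -2, 4), (1, 16, -1, -2, 2)]
  | 0, 4 => [(1, 1, 0, 2, 7), (1, 1, 0, 4, 7), (1, 4, 1, -6, -10), (1, 10, 3, -2, -4)]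
  | 1, 0 => [(1, 4, -3, 2, -10), (1, 7, -1, 0, 1), (1, 7, 0, 0, 1), (-1, 10, 3, -2, -4), (1, 16, -5, 6, -16), (1, 28, -7, 10, -22)]
  | 1, 1 => [(1, 1, 2, 0, 7), (1, 5, -4, 2, -13), (1, 7, -4, 0, 1), (1, 7, -3, 0, 1), (1, 7, -2, 0, 1), (-1, 16, -5, 6, -16), (-1, 28, -7, 10, -22)]
  | 1, 2 => [(-1, 4, 1, 2, 8), (-1, 5, 1, 2, 5), (1, 7, 1, 0, 1), (1, 7, 2, 0, 1), (1, 10, 3, -2, -4)]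
  | 1, 3 => [(1, 2, -1, 2, -2), (-1, 4, -3, 2, -10), (-1, 7, -1, 0, 1), (-1, 7, 0, 2, 1), (-1, 8, 1, 2, 4), (-1, 16, -5, 6, -16), (1, 16, -1, -2, 2), (-1, 20, -1, 6, -2), (-1, 28, -7, 10, -22)]
  | 1, 4 => [(-1, 2, 1, -2, -2), (1, 8, 1, 2, 4), (1, 10, 3, -2, -4)]
  | 2, 0 => [(1, 4, 3, -2, -10), (1, 7, -2, 0, 1), (1, 7, -1, 0, 1), (-1, 7, 0, -2, 1), (1, 8, -1, -2, 4), (-1, 10, 3, -2, -4), (1, 16, 5, -6, -16), (-1, 28, 7, -2, -4)]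
  | 2, 1 => [(1, 7, -4, 0, 1), (1, 7, -3, 0, 1), (-1, 8, -1, -2, 4)]
  | 2, 2 => [(1, 1, -2, 0, 7), (-1, 4, 3, -2, -10), (1, 7, 0, -2, 1), (1, 7, 0, 0, 1), (1, 7, 1, 0, 1), (1, 7, 2, 0, 1), (1, 10, 3, -2, -4), (-1, 16, 5, -6, -16), (1, 28, 7, -2, -4)]
  | 2, 3 => [(-1, 7, -2, 0, 1), (1, 16, -1, -2, 2), (1, 22, -3, -6, 8)]
  | 2, 4 => [(-1, 4, 3, -2, -10), (1, 7, 0, 0, 1), (-1, 8, -1, -2, 4), (1, 10, 3, -2, -4), (-1, 11, 1, -2, -1), (-1, 16, 5, -6, -16), (-1, 20, 1, -6, -2), (1, 28, 7, -2, -4), (-1, 32, 3, -10, -8)]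
  | 3, 0 => [(1, 1, 0, -2, 7), (1, 1, 0, 0, 7), (-1, 1, 1, 0, 7), (-1, 4, 1, -6, -10), (1, 10, -1, 6, -4), (1, 16, -3, 10, -16)]
  | 3, 1 => [(-1, 1, 0, -2, 7), (-1, 2, -3, 2, -20), (1, 2, -1, -2, 16), (1, 2, -1, 2, -2), (-1, 4, 1, 2, 8), (-1, 10, -1, 6, -4), (-1, 16, -3, 10, -16)]
  | 3, 2 => [(-1, 2, 1, -2, -2), (1, 4, 1, -6, -10), (1, 4, 1, 2, 8)]
  | 3, 3 => [(1, 1, 0, -8, 7), (1, 1, 0, -6, 7), (1, 1, 0, -4, 7), (1, 1, 1, 0, 7), (1, 7, 0, 4, 1), (1, 13, -1, 8, -5), (-1, 16, -3, 10, -16)]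
  | 3, 4 => [(1, 1, 0, 2, 7), (1, 1, 0, 4, 7), (1, 4, 1, -6, -10), (-1, 5, 1, 2, 5), (-1, 8, 1, 2, 4)]
  | 4, 0 => [(1, 1, 0, -2, 7), (1, 1, 0, 0, 7), (-1, 4, 1, -6, -10), (1, 7, 0, 0, 1), (1, 10, 1, -6, -4), (1, 16, 3, -10, -16), (1, 22, 5, -14, -28), (1, 28, 7, -2, -4)]
  | 4, 1 => [(-1, 1, 0, -2, 7), (1, 2, -1, -2, 16), (1, 4, -1, -2, 8)]
  | 4, 2 => [(-1, 1, -1, 0, 7), (-1, 2, 3, -2, -20), (-1, 4, -1, -2, 8), (1, 4, 1, -6, -10), (-1, 7, 0, 0, 1), (-1, 10, 1, -6, -4), (-1, 16, 3, -10, -16), (-1, 22, 5, -14, -28), (-1, 28, 7, -2, -4)]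
  | 4, 3 => [(1, 1, 0, -8, 7), (1, 1, 0, -6, 7), (1, 1, 0, -4, 7), (-1, 5, -1, -2, 5), (-1, 8, -1, -2, 4)]
  | 4, 4 => [(1, 1, 0, 2, 7), (1, 1, 0, 4, 7), (1, 4, 1, -6, -10), (1, 7, 0, -4, 1), (-1, 7, 0, 0, 1), (1, 13, 1, -8, -5), (-1, 16, 3, -10, -16), (-1, 22, 5, -14, -28), (-1, 28, 7, -2, -4)]

/-- The rows of `T_13`. -/
def T13T : Fin 5 → Fin 5 → List Tm
  | 0, 0 => [(1, 1, 0, -6, 13), (1, 1, 0, -4, 13), (1, 1, 0, -2, 13), (1, 1, 0, 0, 13), (1, 1, 0, 2, 13), (-1, 2, -1, 2, 4), (-1, 4, 1, -10, -16), (-1, 4, 1, -2, 2), (1, 13, -4, 0, 1), (1, 13, -3, 0, 1), (1, 13, -2, 0, 1), (1, 13, -1, 0, 1), (1, 13, 0, 0, 1), (-1, 16, 5, -2, -4), (1, 20, -3, -2, 4), (-1, 34, 9, -2, -4)]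
  | 0, 1 => [(-1, 1, -1, 2, -5), (-1, 1, 0, -6, 13), (-1, 1, 0, -4, 13), (1, 2, -1, -2, 22), (1, 2, -1, 2, 4), (-1, 2, 1, -2, 4), (1, 13, -8, 0, 1), (1, 13, -7, 0, 1), (1, 13, -6, 0, 1), (1, 13, -5, 0, 1), (-1, 20, -3, -2, 4)]
  | 0, 2 => [(-1, 1, 1, -2, -5), (1, 4, 1, -10, -16), (1, 4, 1, -2, 2), (1, 13, 1, 0, 1), (1, 13, 2, 0, 1), (1, 13, 3, 0, 1), (1, 13, 4, 0, 1), (1, 16, 5, -2, -4), (1, 34, 9, -2, -4)]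
  | 0, 3 => [(1, 1, 0, -14, 13), (1, 1, 0, -12, 13), (1, 1, 0, -10, 13), (1, 1, 0, -8, 13), (-1, 4, -1, 2, 2), (1, 4, 1, -2, 2), (-1, 5, -1, 2, -1), (-1, 13, -4, 0, 1), (-1, 13, -3, 0, 1), (-1, 13, -2, 0, 1), (-1, 20, -3, -2, 4), (1, 22, -1, -2, 2), (1, 40, -3, -2, 2)]
  | 0, 4 => [(1, 1, 0, 4, 13), (1, 1, 0, 6, 13), (1, 1, 0, 8, 13), (1, 1, 0, 10, 13), (1, 2, -1, 2, 4), (1, 4, 1, -10, -16), (-1, 5, 1, -2, -1), (1, 13, 1, 0, 1), (-1, 14, 3, -2, -2), (1, 16, 5, -2, -4), (1, 34, 9, -2, -4)]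
  | 1, 0 => [(-1, 2, -1, 2, 4), (1, 2, 1, -2, 4), (1, 4, -5, 2, -16), (-1, 4, -1, 2, 2), (-1, 5, -1, 2, -1), (1, 8, 3, 2, 10), (1, 10, 3, 2, 8), (1, 13, -3, 0, 1), (1, 13, -2, 0, 1), (1, 13, -1, 0, 1), (1, 13, 0, 0, 1), (-1, 14, -3, 2, -2), (1, 16, -7, 6, -22), (-1, 16, 5, -2, -4), (1, 28, -9, 10, -28), (-1, 34, 9, -2, -4), (1, 40, -11, 14, -34), (1, 52, -13, 18, -40)]
  | 1, 1 => [(1, 1, 4, 0, 13), (1, 2, -3, 2, -14), (-1, 2, 1, -2, 4), (1, 5, -6, 2, -19), (1, 7, 2, 2, 7), (1, 11, -8, 4, -25), (1, 13, -8, 0, 1), (1, 13, -7, 0, 1), (1, 13, -6, 0, 1), (1, 13, -5, 0, 1), (1, 13, -4, 0, 1), (1, 14, -3, 2, -2), (-1, 16, -7, 6, -22), (1, 17, -10, 6, -31), (-1, 28, -9, 10, -28), (-1, 40, -11, 14, -34), (-1, 52, -13, 18, -40)]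
  | 1, 2 => [(-1, 7, 2, 2, 7), (-1, 8, 3, 2, 10), (-1, 10, 3, 2, 8), (-1, 11, 3, 4, 11), (1, 13, 1, 0, 1), (1, 13, 2, 0, 1), (1, 13, 3, 0, 1), (1, 13, 4, 0, 1), (1, 16, 5, -2, -4), (-1, 17, 7, 6, 23), (1, 34, 9, -2, -4)]
  | 1, 3 => [(-1, 4, -5, 2, -16), (1, 4, 1, -2, 2), (-1, 8, 3, 2, 10), (-1, 13, -3, 0, 1), (-1, 13, -2, 0, 1), (-1, 13, 0, 4, 1), (1, 14, -3, 2, -2), (-1, 16, -7, 6, -22), (-1, 20, 1, 6, 4), (1, 22, -1, -2, 2), (-1, 28, -9, 10, -28), (-1, 32, -1, 10, -2), (-1, 40, -11, 14, -34), (1, 40, -3, -2, 2), (-1, 52, -13, 18, -40)]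
  | 1, 4 => [(1, 2, -1, 2, 4), (-1, 5, 1, -2, -1), (-1, 10, 3, 2, 8), (1, 13, 1, 0, 1), (-1, 14, 3, -2, -2), (1, 16, 5, -2, -4), (1, 34, 9, -2, -4)]
  | 2, 0 => [(-1, 4, 1, -2, 2), (1, 4, 5, -2, -16), (-1, 5, 1, -2, -1), (1, 8, -3, -2, 10), (1, 10, -3, -2, 8), (1, 13, -4, 0, 1), (1, 13, -3, 0, 1), (1, 13, -2, 0, 1), (1, 13, -1, 0, 1), (-1, 13, 0, -4, 1), (-1, 14, 3, -2, -2), (-1, 16, 5, -2, -4), (1, 16, 7, -6, -22), (-1, 19, 2, -6, -5), (1, 20, -3, -2, 4), (1, 28, 9, -10, -28), (-1, 34, 9, -2, -4), (-1, 52, 13, -2, -4)]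
  | 2, 1 => [(-1, 7, -2, -2, 7), (-1, 10, -3, -2, 8), (1, 13, -8, 0, 1), (1, 13, -7, 0, 1), (1, 13, -6, 0, 1), (1, 13, -5, 0, 1), (-1, 20, -3, -2, 4)]
  | 2, 2 => [(1, 1, -4, 0, 13), (1, 5, 6, -2, -19), (1, 7, -2, -2, 7), (-1, 8, 5, -2, -8), (1, 13, 0, -4, 1), (1, 13, 0, 0, 1), (1, 13, 1, 0, 1), (1, 13, 2, 0, 1), (1, 13, 3, 0, 1), (1, 13, 4, 0, 1), (1, 14, 3, -2, -2), (1, 16, 5, -2, -4), (-1, 16, 7, -6, -22), (1, 19, 2, -6, -5), (-1, 28, 9, -10, -28), (1, 34, 9, -2, -4), (1, 52, 13, -2, -4)]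
  | 2, 3 => [(1, 4, 1, -2, 2), (-1, 13, -4, 0, 1), (-1, 13, -3, 0, 1), (-1, 13, -2, 0, 1), (1, 17, -2, -4, 5), (-1, 20, -3, -2, 4), (1, 22, -1, -2, 2), (1, 34, -5, -10, 14), (1, 40, -3, -2, 2)]
  | 2, 4 => [(1, 2, -1, 2, 4), (-1, 4, 5, -2, -16), (-1, 8, -3, -2, 10), (1, 13, 0, 0, 1), (1, 16, 5, -2, -4), (-1, 16, 7, -6, -22), (-1, 20, -1, -6, 4), (-1, 28, 9, -10, -28), (-1, 32, 1, -10, -2), (1, 34, 9, -2, -4), (-1, 44, 3, -14, -8), (1, 52, 13, -2, -4), (-1, 56, 5, -18, -14)]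
  | 3, 0 => [(-1, 1, -1, 2, -5), (1, 1, 0, -6, 13), (1, 1, 0, -4, 13), (1, 1, 0, -2, 13), (1, 1, 0, 0, 13), (1, 1, 0, 2, 13), (-1, 1, 2, 0, 13), (-1, 2, -1, 6, -14), (-1, 2, 1, -2, 4), (1, 4, -1, 2, 2), (-1, 4, 1, -10, -16), (-1, 4, 1, -2, 2), (1, 8, 1, 6, 10), (1, 10, 1, 6, 8), (1, 16, -1, 10, -4), (1, 22, -3, 14, -16), (1, 28, -5, 18, -28), (1, 34, -7, 22, -40)]
  | 3, 1 => [(-1, 1, 0, -6, 13), (-1, 1, 0, -4, 13), (-1, 2, -5, 2, -32), (1, 2, -1, -2, 22), (1, 2, -1, 2, 4), (1, 2, -1, 6, -14), (-1, 4, 3, 2, 20), (-1, 5, -3, 4, -19), (-1, 8, -7, 6, -44), (-1, 10, 1, 6, 8), (-1, 16, -1, 10, -4), (-1, 22, -3, 14, -16), (-1, 28, -5, 18, -28), (-1, 34, -7, 22, -40)]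
  | 3, 2 => [(-1, 1, 1, -2, -5), (1, 4, 1, -10, -16), (1, 4, 1, -2, 2), (1, 5, 2, 4, 17)]
  | 3, 3 => [(1, 1, 0, -14, 13), (1, 1, 0, -12, 13), (1, 1, 0, -10, 13), (1, 1, 0, -8, 13), (1, 1, 2, 0, 13), (1, 2, -1, 6, -14), (-1, 4, -1, 2, 2), (1, 7, 1, 4, 7), (1, 13, 0, 8, 1), (1, 19, -1, 12, -5), (-1, 22, -3, 14, -16), (1, 25, -2, 16, -11), (-1, 28, -5, 18, -28), (-1, 34, -7, 22, -40)]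
  | 3, 4 => [(1, 1, 0, 4, 13), (1, 1, 0, 6, 13), (1, 1, 0, 8, 13), (1, 1, 0, 10, 13), (1, 4, 1, -10, -16), (1, 4, 1, -2, 2), (-1, 7, 1, 4, 7), (-1, 8, 1, 6, 10), (-1, 10, 1, 6, 8), (-1, 11, 2, 6, 11)]
  | 4, 0 => [(1, 1, 0, -6, 13), (1, 1, 0, -4, 13), (1, 1, 0, -2, 13), (1, 1, 0, 0, 13), (1, 1, 0, 2, 13), (-1, 2, -1, 2, 4), (-1, 4, 1, -10, -16), (1, 5, 1, -2, -1), (-1, 7, -1, -4, 7), (1, 8, -1, -6, 10), (-1, 10, -3, -2, 8), (1, 10, -1, -6, 8), (1, 13, 0, 0, 1), (1, 14, 3, -2, -2), (1, 16, 1, -10, -4), (1, 22, 3, -14, -16), (1, 28, 5, -18, -28), (1, 34, 7, -22, -40), (1, 40, 9, -26, -52), (1, 52, 13, -2, -4)]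
  | 4, 1 => [(-1, 1, -1, 2, -5), (-1, 1, 0, -6, 13), (-1, 1, 0, -4, 13), (1, 2, -1, -2, 22), (1, 2, -1, 2, 4), (1, 7, -1, -4, 7), (-1, 8, -3, -2, 10), (1, 10, -3, -2, 8)]
  | 4, 2 => [(-1, 1, -2, 0, 13), (-1, 1, 1, -2, -5), (-1, 2, 5, -2, -32), (-1, 4, -3, -2, 20), (1, 4, 1, -10, -16), (1, 4, 1, -2, 2), (-1, 5, 1, -2, -1), (1, 8, 5, -2, -8), (-1, 8, 7, -6, -44), (-1, 10, -1, -6, 8), (-1, 13, 0, 0, 1), (-1, 14, 3, -2, -2), (-1, 16, 1, -10, -4), (-1, 22, 3, -14, -16), (-1, 28, 5, -18, -28), (-1, 34, 7, -22, -40), (-1, 40, 9, -26, -52), (-1, 52, 13, -2, -4)]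
  | 4, 3 => [(1, 1, 0, -14, 13), (1, 1, 0, -12, 13), (1, 1, 0, -10, 13), (1, 1, 0, -8, 13), (-1, 4, -1, 2, 2), (-1, 5, -1, 2, -1), (-1, 8, -1, -6, 10), (1, 10, -3, -2, 8), (-1, 10, -1, -6, 8), (-1, 11, -2, -6, 11)]
  | 4, 4 => [(1, 1, 0, 4, 13), (1, 1, 0, 6, 13), (1, 1, 0, 8, 13), (1, 1, 0, 10, 13), (-1, 1, 1, -2, -5), (1, 4, 1, -10, -16), (-1, 5, 1, -2, -1), (1, 7, -1, -4, 7), (1, 13, 0, -8, 1), (-1, 13, 0, 0, 1), (1, 13, 1, 0, 1), (1, 14, 1, -6, -2), (-1, 14, 3, -2, -2), (1, 19, 1, -12, -5), (-1, 22, 3, -14, -16), (1, 25, 2, -16, -11), (-1, 28, 5, -18, -28), (-1, 34, 7, -22, -40), (-1, 40, 9, -26, -52), (-1, 52, 13, -2, -4)]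

/-- The rows of `T_31`. -/
def T31T : Fin 5 → Fin 5 → List Tm
  | 0, 0 => [(1, 1, 0, -14, 31), (1, 1, 0, -12, 31), (1, 1, 0, -10, 31), (1, 1, 0, -8, 31), (1, 1, 0, -6, 31), (1, 1, 0, -4, 31), (1, 1, 0, -2, 31), (1, 1, 0, 0, 31), (1, 1, 0, 2, 31), (1, 1, 0, 4, 31), (-1, 1, 1, -4, -5), (-1, 2, -3, 2, 4), (-1, 2, -1, 6, 4), (-1, 2, -1, 10, -14), (-1, 2, 1, -10, -14), (-1, 2, 1, -6, 4), (-1, 4, -3, 2, 2), (-1, 4, 1, -38, -70), (-1, 4, 1, -30, -52), (-1, 4, 1, -22, -34), (-1, 4, 1, -14, -16), (-1, 4, 1, -6, 2), (-1, 4, 3, -2, 2), (-1, 5, 2, -2, -1), (1, 7, -1, -2, 7), (1, 8, -1, -2, 10), (1, 8, 1, 2, 10), (1, 10, -1, -2, 8), (1, 10, 1, 2, 8), (-1, 10, 3, -6, -10), (-1, 14, -5, 2, -2), (1, 14, -3, -6, 16), (-1, 14, 5, -2, -2), (1, 16, -3, -6, 14), (-1, 16, 7, -2,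 -4), (1, 20, -1, -2, 4), (1, 31, -10, 0, 1), (1, 31, -9, 0, 1), (1, 31, -8, 0, 1), (1, 31, -7, 0, 1), (1, 31, -6, 0, 1), (1, 31, -5, 0, 1), (1, 31, -4, 0, 1), (1, 31, -3, 0, 1), (1, 31, -2, 0, 1), (1, 31, -1, 0, 1), (1, 31, 0, 0, 1), (-1, 34, 11, -2, -4), (1, 38, -5, -2, 4), (-1, 52, 15, -2, -4), (1, 56, -9, -2, 4), (-1, 70, 19, -2, -4), (-1, 88, 23, -2, -4), (-1, 106, 27, -2, -4)]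
  | 0, 1 => [(-1, 1, -2, 2, -5), (-1, 1, -1, 4, -5), (-1, 1, 0, -14, 31), (-1, 1, 0, -12, 31), (-1, 1, 0, -10, 31), (-1, 1, 0, -8, 31), (1, 2, -1, -10, 76), (1, 2, -1, -6, 58), (1, 2, -1, -2, 40), (1, 2, -1, 2, 22), (1, 2, -1, 6, 4), (1, 2, -1, 10, -14), (-1, 2, 3, -2, 4), (1, 4, -1, -2, 20), (-1, 7, -1, -2, 7), (-1, 10, -1, -2, 8), (1, 14, -5, 2, -2), (-1, 14, -3, -6, 16), (-1, 16, -3, -6, 14), (-1, 20, -1, -2, 4), (1, 31, -20, 0, 1), (1, 31, -19, 0, 1), (1, 31, -18, 0, 1), (1, 31, -17, 0, 1), (1, 31, -16, 0, 1), (1, 31, -15, 0, 1), (1, 31, -14, 0, 1), (1, 31, -13, 0, 1), (1, 31, -12, 0, 1), (1, 31, -11, 0, 1), (-1, 38, -5, -2, 4), (-1, 56, -9, -2, 4)]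
  | 0, 2 => [(-1, 1, 1, -6, -23), (-1, 1, 2, -2, -5), (1, 4, 1, -38, -70), (1, 4, 1, -30, -52), (1, 4, 1, -22, -34), (1, 4, 1, -14, -16), (1, 4, 1, -6, 2), (1, 4, 1, 2, 20), (1, 5, 2, -2, -1), (-1, 8, 1, 2, 10), (-1, 8, 7, -2, -8), (-1, 10, 1, 2, 8), (1, 10, 3, -6, -10), (1, 14, 5, -2, -2), (1, 16, 7, -2, -4), (1, 31, 1, 0, 1), (1, 31, 2, 0, 1), (1, 31, 3, 0, 1), (1, 31, 4, 0, 1), (1, 31, 5, 0, 1), (1, 31, 6, 0, 1), (1, 31, 7, 0, 1), (1, 31, 8, 0, 1), (1, 31, 9, 0, 1), (1, 31, 10, 0, 1), (1, 34, 11, -2, -4), (1, 52, 15, -2, -4), (1, 70, 19, -2, -4), (1, 88, 23, -2, -4), (1, 106, 27, -2, -4)]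
  | 0, 3 => [(1, 1, 0, -36, 31), (1, 1, 0, -34, 31), (1, 1, 0, -32, 31), (1, 1, 0, -30, 31), (1, 1, 0, -28, 31), (1, 1, 0, -26, 31), (1, 1, 0, -24, 31), (1, 1, 0, -22, 31), (1, 1, 0, -20, 31), (1, 1, 0, -18, 31), (1, 1, 0, -16, 31), (1, 2, -1, 10, -14), (-1, 4, -1, 6, 2), (1, 4, 3, -2, 2), (-1, 5, -2, 2, -1), (-1, 5, -1, 4, -1), (-1, 7, -1, -2, 7), (-1, 8, -1, -2, 10), (1, 14, -5, 2, -2), (-1, 14, -3, -6, 16), (-1, 16, -3, -6, 14), (1, 22, 1, -2, 2), (-1, 31, -10, 0, 1), (-1, 31, -9, 0, 1), (-1, 31, -8, 0, 1), (-1, 31, -7, 0, 1), (-1, 31, -6, 0, 1), (-1, 31, -5, 0, 1), (-1, 31, -4, 0, 1), (-1, 38, -5, -2, 4), (1, 40, -1, -2, 2), (-1, 56, -9, -2, 4), (1, 58, -3, -2, 2), (1, 76, -5, -2, 2), (1, 94, -7, -2, 2), (1, 112, -9, -2, 2)]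
  | 0, 4 => [(1, 1, 0, 6, 31), (1, 1, 0, 8, 31), (1, 1, 0, 10, 31), (1, 1, 0, 12, 31), (1, 1, 0, 14, 31), (1, 1, 0, 16, 31), (1, 1, 0, 18, 31), (1, 1, 0, 20, 31), (1, 1, 0, 22, 31), (1, 1, 0, 24, 31), (1, 1, 1, -4, -5), (1, 2, -3, 2, 4), (1, 2, 1, -10, -14), (1, 4, 1, -38, -70), (1, 4, 1, -30, -52), (1, 4, 1, -22, -34), (1, 4, 1, -14, -16), (-1, 5, 1, -4, -1), (-1, 8, 1, -14, -8), (-1, 8, 1, 2, 10), (-1, 10, 1, 2, 8), (1, 10, 3, -6, -10), (1, 16, 7, -2, -4), (1, 20, 1, 2, 4), (-1, 23, 3, -2, -1), (1, 31, 1, 0, 1), (1, 31, 2, 0, 1), (-1, 32, 7, -2, -2), (1, 34, 11, -2, -4), (-1, 50, 9, -2, -2), (1, 52, 15, -2, -4), (1, 70, 19, -2, -4), (1, 88, 23, -2, -4), (1, 106, 27, -2, -4)]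
  | 1, 0 => [(1, 1, -2, 2, -5), (1, 2, -5, 2, -14), (-1, 2, -3, 2, 4), (1, 2, 3, -2, 4), (1, 4, -11, 2, -34), (-1, 4, -3, 2, 2), (-1, 4, 3, -2, 2), (-1, 5, -2, 2, -1), (1, 8, 9, 2, 28), (1, 10, -1, -2, 8), (-1, 14, -5, 2, -2), (-1, 14, 5, -2, -2), (1, 16, -13, 6, -40), (-1, 16, 7, -2, -4), (-1, 17, 1, 6, 5), (1, 20, -1, -2, 4), (1, 20, 7, 6, 22), (1, 22, 7, 6, 20), (-1, 26, -5, 6, -8), (1, 28, -15, 10, -46), (1, 31, -9, 0, 1), (1, 31, -8, 0, 1), (1, 31, -7, 0, 1), (1, 31, -6, 0, 1), (1, 31, -5, 0, 1), (1, 31, -4, 0, 1), (1, 31, -3, 0, 1), (1, 31, -2, 0, 1), (1, 31, -1, 0, 1), (1, 31, 0, 0, 1), (-1, 34, 11, -2, -4), (1, 38, -5, -2, 4), (1, 40, -17, 14, -52), (1, 52, -19, 18, -58), (-1, 52, 15, -2, -4), (1, 64, -21, 22, -64), (-1, 70, 19, -2, -4), (1, 76, -23,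 26, -70), (1, 88, -25, 30, -76), (-1, 88, 23, -2, -4), (1, 100, -27, 34, -82), (-1, 106, 27, -2, -4), (1, 112, -29, 38, -88), (1, 124, -31, 42, -94), (1, 136, -33, 46, -100), (1, 148, -35, 50, -106)]
  | 1, 1 => [(-1, 1, -2, 2, -5), (1, 1, 1, -2, 13), (1, 1, 10, 0, 31), (-1, 2, 3, -2, 4), (1, 5, -12, 2, -37), (1, 7, 8, 2, 25), (1, 8, -1, -2, 10), (-1, 10, -1, -2, 8), (1, 10, 1, 2, 8), (1, 11, -14, 4, -43), (-1, 11, -3, 4, -7), (1, 13, 6, 4, 19), (1, 14, -11, 6, -38), (1, 14, -5, 2, -2), (1, 17, -16, 6, -49), (-1, 20, -1, -2, 4), (1, 23, -18, 8, -55), (1, 26, -5, 6, -8), (1, 29, -20, 10, -61), (1, 31, -20, 0, 1), (1, 31, -19, 0, 1), (1, 31, -18, 0, 1), (1, 31, -17, 0, 1), (1, 31, -16, 0, 1), (1, 31, -15, 0, 1), (1, 31, -14, 0, 1), (1, 31, -13, 0, 1), (1, 31,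 -12, 0, 1), (1, 31, -11, 0, 1), (1, 31, -10, 0, 1), (1, 35, -22, 12, -67), (-1, 38, -5, -2, 4), (-1, 40, -17, 14, -52), (1, 41, -24, 14, -73), (-1, 52, -19, 18, -58), (-1, 64, -21, 22, -64), (-1, 76, -23, 26, -70), (-1, 88, -25, 30, -76), (-1, 100, -27, 34, -82), (-1, 112, -29, 38, -88), (-1, 124, -31, 42, -94), (-1, 136, -33, 46, -100), (-1, 148, -35, 50, -106)]
  | 1, 2 => [(-1, 1, 2, -2, -5), (1, 4, 3, -2, 2), (-1, 7, 1, 2, 7), (-1, 8, 1, 2, 10), (-1, 8, 7, -2, -8), (-1, 10, 1, 2, 8), (-1, 13, 6, 4, 19), (-1, 14, 3, 6, 16), (1, 14, 5, -2, -2), (-1, 16, 3, 6, 14), (1, 16, 7, -2, -4), (-1, 20, 7, 6, 22), (-1, 22, 7, 6, 20), (-1, 23, 5, 8, 17), (-1, 28, 13, 10, 44), (-1, 29, 9, 10, 29), (1, 31, 1, 0, 1), (1, 31, 2, 0, 1), (1, 31, 3, 0, 1), (1, 31, 4, 0, 1),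 (1, 31, 5, 0, 1), (1, 31, 6, 0, 1), (1, 31, 7, 0, 1), (1, 31, 8, 0, 1), (1, 31, 9, 0, 1), (1, 31, 10, 0, 1), (1, 34, 11, -2, -4), (-1, 35, 13, 12, 41), (-1, 41, 17, 14, 53), (1, 52, 15, -2, -4), (1, 70, 19, -2, -4), (1, 88, 23, -2, -4), (1, 106, 27, -2, -4)]
  | 1, 3 => [(1, 1, -1, 4, -5), (-1, 4, -11, 2, -34), (1, 4, 3, -2, 2), (-1, 8, 9, 2, 28), (1, 10, -3, 6, -10), (-1, 10, -1, -2, 8), (1, 11, -2, 6, -7), (-1, 13, -1, 2, 1), (1, 14, -5, 2, -2), (-1, 16, -13, 6, -40), (-1, 19, 4, 6, 13), (-1, 20, 7, 6, 22), (1, 22, 1, -2, 2), (-1, 25, 2, 8, 7), (1, 26, -5, 6, -8), (1, 26, -3, 10, -8), (-1, 28, -15, 10, -46), (-1, 31, -9, 0, 1), (-1, 31, -8, 0, 1), (-1, 31, -7, 0, 1), (-1, 31, -6, 0, 1), (-1, 31, -5, 0, 1), (-1, 31, -4, 0, 1), (-1, 31, 0, 10, 1), (-1, 32,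 5, 10, 16), (-1, 37, -2, 12, -5), (-1, 38, -5, -2, 4), (-1, 40, -17, 14, -52), (1, 40, -1, -2, 2), (-1, 44, 3, 14, 10), (-1, 52, -19, 18, -58), (-1, 56, 1, 18, 4), (1, 58, -3, -2, 2), (-1, 64, -21, 22, -64), (-1, 68, -1, 22, -2), (-1, 76, -23, 26, -70), (1, 76, -5, -2, 2), (-1, 80, -3, 26, -8), (-1, 88, -25, 30, -76), (-1, 92, -5, 30, -14), (1, 94, -7, -2, 2), (-1, 100, -27, 34, -82), (-1, 112, -29, 38, -88), (1, 112, -9, -2, 2), (-1, 124, -31, 42, -94), (-1, 136, -33, 46, -100), (-1, 148, -35, 50, -106)]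
  | 1, 4 => [(1, 2, -3, 2, 4), (-1, 2, -1, 6, 4), (-1, 2, 3, -2, 4), (-1, 4, -1, 6, 2), (-1, 5, -1, 4, -1), (-1, 5, 2, -2, -1), (1, 16, 7, -2, -4), (1, 19, 4, 6, 13), (1, 20, 1, 2, 4), (-1, 22, 7, 6, 20), (-1, 23, 3, -2, -1), (1, 31, 1, 0, 1), (1, 31, 2, 0, 1), (1, 32, 5, 10, 16), (-1, 32, 7, -2, -2), (1, 34, 11, -2, -4), (-1, 50, 9, -2, -2), (1, 52, 15, -2, -4), (1, 70, 19, -2, -4), (1, 88, 23, -2, -4), (1, 106, 27, -2, -4)]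
  | 2, 0 => [(1, 2, 5, -2, -14), (-1, 4, 3, -2, 2), (1, 4, 11, -2, -34), (-1, 5, 2, -2, -1), (1, 8, -9, -2, 28), (-1, 11, 3, -4, -7), (-1, 13, 1, -2, 1), (-1, 14, -5, 2, -2), (-1, 14, 5, -2, -2), (-1, 16, 7, -2, -4), (1, 16, 13, -6, -40), (1, 20, -7, -6, 22), (1, 20, -1, -2, 4), (1, 22, -7, -6, 20), (-1, 25, -2, -8, 7), (-1, 26, 5, -6, -8), (1, 28, 15, -10, -46), (1, 31, -10, 0, 1), (1, 31, -9, 0, 1), (1, 31, -8, 0, 1), (1, 31, -7, 0, 1), (1, 31, -6, 0, 1), (1, 31, -5, 0, 1), (1, 31, -4, 0, 1), (1, 31, -3, 0, 1), (1, 31, -2, 0, 1), (1, 31, -1, 0, 1), (-1, 31, 0, -10, 1), (-1, 32, 7, -2, -2), (-1, 34, 9, -10, -22), (-1, 34, 11, -2, -4), (-1, 37, 2, -12, -5), (1, 38, -5, -2, 4), (1, 40, 17, -14, -52), (-1, 43, 4, -14, -11), (1, 50, -13, -14, 34), (-1, 52, 15,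 -2, -4), (1, 52, 19, -18, -58), (1, 56, -9, -2, 4), (1, 64, 21, -22, -64), (-1, 70, 19, -2, -4), (1, 76, 23, -26, -70), (-1, 88, 23, -2, -4), (1, 88, 25, -30, -76), (-1, 106, 27, -2, -4), (-1, 124, 31, -2, -4)]
  | 2, 1 => [(-1, 2, 3, -2, 4), (-1, 7, -1, -2, 7), (-1, 10, -1, -2, 8), (1, 11, -5, -2, 11), (1, 14, -9, -2, 16), (1, 14, -5, 2, -2), (1, 16, -9, -2, 14), (-1, 16, -3, -6, 14), (-1, 19, -4, -6, 13), (-1, 20, -7, -6, 22), (-1, 20, -1, -2, 4), (-1, 22, -7, -6, 20), (1, 31, -20, 0, 1), (1, 31, -19, 0, 1), (1, 31, -18, 0, 1), (1, 31, -17, 0, 1), (1, 31, -16, 0, 1), (1, 31, -15, 0, 1), (1, 31, -14, 0, 1), (1, 31, -13, 0, 1), (1, 31, -12, 0, 1), (1, 31, -11, 0, 1), (-1, 38, -5, -2, 4), (-1, 50, -13, -14, 34), (-1, 56, -9, -2, 4)]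
  | 2, 2 => [(1, 1, -10, 0, 31), (1, 5, 12, -2, -37), (1, 7, -8, -2, 25), (-1, 8, 7, -2, -8), (1, 10, -1, -2, 8), (-1, 11, 6, -2, -7), (1, 11, 14, -4, -43), (1, 13, -6, -4, 19), (1, 13, 1, -2, 1), (-1, 13, 7, -4, -17), (1, 19, -4, -6, 13), (1, 25, -2, -8, 7), (1, 26, 5, -6, -8), (-1, 28, 15, -10, -46), (1, 31, 0, -10, 1), (1, 31, 0, 0, 1), (1, 31, 1, 0, 1), (1, 31, 2, 0, 1), (1, 31, 3, 0, 1), (1, 31, 4, 0, 1), (1, 31, 5, 0, 1), (1, 31, 6, 0, 1), (1, 31, 7, 0, 1), (1, 31, 8, 0, 1), (1, 31, 9, 0, 1), (1, 31, 10, 0, 1), (1, 32, 7, -2, -2), (1, 34, 9, -10, -22), (1, 34, 11, -2, -4), (1, 37, 2, -12, -5), (-1, 40, 17, -14, -52), (1, 43, 4, -14, -11), (1, 52, 15, -2, -4), (-1, 52, 19, -18, -58), (-1, 64, 21, -22, -64), (1, 70, 19, -2, -4), (-1, 76, 23, -26, -70),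 (1, 88, 23, -2, -4), (-1, 88, 25, -30, -76), (1, 106, 27, -2, -4), (1, 124, 31, -2, -4)]
  | 2, 3 => [(-1, 2, -3, 2, 4), (-1, 4, -3, 2, 2), (1, 4, 3, -2, 2), (-1, 5, -2, 2, -1), (1, 14, -5, 2, -2), (1, 22, 1, -2, 2), (1, 25, -2, -8, 7), (1, 28, -3, -6, 8), (1, 29, -4, -8, 11), (-1, 31, -10, 0, 1), (-1, 31, -9, 0, 1), (-1, 31, -8, 0, 1), (-1, 31, -7, 0, 1), (-1, 31, -6, 0, 1), (-1, 31, -5, 0, 1), (-1, 31, -4, 0, 1), (1, 32, -5, -10, 16), (-1, 38, -5, -2, 4), (1, 40, -1, -2, 2), (1, 46, -9, -14, 26), (-1, 50, -13, -14, 34), (-1, 56, -9, -2, 4), (1, 58, -3, -2, 2), (1, 70, -11, -22, 32), (1, 76, -5, -2, 2), (1, 94, -13, -30, 38), (1, 94, -7, -2, 2), (1, 112, -9, -2, 2), (1, 118, -15, -38, 44)]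
  | 2, 4 => [(1, 1, 2, -2, -5), (1, 2, -3, 2, 4), (-1, 4, 11, -2, -34), (-1, 8, -9, -2, 28), (1, 10, 3, -6, -10), (1, 11, 3, -4, -7), (1, 16, 7, -2, -4), (-1, 16, 13, -6, -40), (-1, 20, -7, -6, 22), (-1, 22, 1, -2, 2), (-1, 23, 1, -6, -1), (-1, 23, 3, -2, -1), (1, 26, 5, -6, -8), (-1, 28, 15, -10, -46), (1, 31, 0, 0, 1), (1, 31, 1, 0, 1), (1, 31, 2, 0, 1), (-1, 32, -5, -10, 16), (1, 34, 9, -10, -22), (1, 34, 11, -2, -4), (-1, 40, 17, -14, -52), (-1, 44, -3, -14, 10), (-1, 50, 9, -2, -2), (1, 52, 15, -2, -4), (-1, 52, 19, -18, -58), (-1, 56, -1, -18, 4), (-1, 64, 21, -22, -64), (-1, 68, 1, -22, -2), (1, 70, 19, -2, -4), (-1, 76, 23, -26, -70), (-1, 80, 3, -26, -8), (1, 88, 23, -2, -4), (-1, 88, 25, -30, -76), (-1, 92, 5, -30, -14), (-1, 104, 7, -34, -20), (1,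 106, 27, -2, -4), (-1, 116, 9, -38, -26), (1, 124, 31, -2, -4), (-1, 128, 11, -42, -32), (-1, 140, 13, -46, -38), (-1, 152, 15, -50, -44)]
  | 3, 0 => [(1, 1, 0, -14, 31), (1, 1, 0, -12, 31), (1, 1, 0, -10, 31), (1, 1, 0, -8, 31), (1, 1, 0, -6, 31), (1, 1, 0, -4, 31), (1, 1, 0, -2, 31), (1, 1, 0, 0, 31), (1, 1, 0, 2, 31), (1, 1, 0, 4, 31), (-1, 1, 1, -4, -5), (-1, 1, 5, 0, 31), (-1, 2, -1, 10, -14), (-1, 2, 1, -10, -14), (-1, 2, 1, -6, 4), (1, 4, -1, 6, 2), (-1, 4, 1, -38, -70), (-1, 4, 1, -30, -52), (-1, 4, 1, -22, -34), (-1, 4, 1, -14, -16), (-1, 4, 1, -6, 2), (1, 5, -1, 4, -1), (-1, 5, 2, -2, -1), (-1, 7, -2, 6, -11), (1, 7, -1, -2, 7), (-1, 7, 1, 2, 7), (-1, 7, 4, 4, 25), (-1, 8, -3, 10, -26), (1, 10, -3, 6, -10), (-1, 10, 3, -6, -10), (1, 14, -3, -6, 16),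 (1, 14, -1, 10, -2), (-1, 14, 3, 6, 16), (-1, 16, 3, 6, 14), (1, 20, 3, 14, 22), (1, 22, 3, 14, 20), (1, 28, 1, 18, 8), (1, 34, -1, 22, -4), (1, 34, 7, 26, 50), (1, 40, -3, 26, -16), (1, 46, -5, 30, -28), (1, 52, -7, 34, -40), (1, 58, -9, 38, -52), (1, 64, -11, 42, -64), (1, 70, -13, 46, -76), (1, 76, -15, 50, -88), (1, 82, -17, 54, -100), (1, 88, -19, 58, -112)]
  | 3, 1 => [(-1, 1, -3, 2, -23), (-1, 1, -1, 4, -5), (-1, 1, 0, -14, 31), (-1, 1, 0, -12, 31), (-1, 1, 0, -10, 31), (-1, 1, 0, -8, 31), (-1, 1, 1, -2, 13), (-1, 2, -11, 2, -68), (1, 2, -1, -10, 76), (1, 2, -1, -6, 58), (1, 2, -1, -2, 40), (1, 2, -1, 2, 22), (1, 2, -1, 6, 4), (1, 2, -1, 10, -14), (1, 4, -1, -2, 20), (-1, 4, 9, 2, 56), (-1, 5, -6, 4, -37), (1, 5, -2, 2, -1), (1, 7, -3, 4, -11), (1,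 7, -2, 6, -11), (-1, 7, -1, -2, 7), (-1, 8, -13, 6, -80), (1, 8, -5, 6, -26), (1, 8, -3, 10, -26), (-1, 10, 7, 6, 44), (-1, 11, -7, 8, -43), (-1, 14, -15, 10, -92), (-1, 14, -3, -6, 16), (-1, 16, 5, 10, 32), (-1, 20, -17, 14, -104), (-1, 22, 3, 14, 20), (-1, 26, -19, 18, -116), (-1, 28, 1, 18, 8), (-1, 34, -1, 22, -4), (-1, 40, -3, 26, -16), (-1, 46, -5, 30, -28), (-1, 52, -7, 34, -40), (-1, 58, -9, 38, -52), (-1, 64, -11, 42, -64), (-1, 70, -13, 46, -76), (-1, 76, -15, 50, -88), (-1, 82, -17, 54, -100), (-1, 88, -19, 58, -112)]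
  | 3, 2 => [(-1, 1, 1, -6, -23), (-1, 2, -1, 6, 4), (-1, 2, 3, -2, 4), (-1, 4, -1, 6, 2), (1, 4, 1, -38, -70), (1, 4, 1, -30, -52), (1, 4, 1, -22, -34), (1, 4, 1, -14, -16), (1, 4, 1, -6, 2), (1, 4, 1, 2, 20), (-1, 4, 3, -2, 2), (1, 5, 2, -2, -1), (-1, 5, 3, 2, 17), (1, 7, 1, 2, 7), (1, 10, 3, -6, -10), (1, 11, 4, 8, 29), (1, 14, 3, 6, 16), (1, 16, 3, 6, 14), (1, 16, 5, 10, 32), (1, 26, 7, 18, 46), (-1, 34, 7, 26, 50)]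
  | 3, 3 => [(-1, 1, -1, 4, -5), (1, 1, 0, -36, 31), (1, 1, 0, -34, 31), (1, 1, 0, -32, 31), (1, 1, 0, -30, 31), (1, 1, 0, -28, 31), (1, 1, 0, -26, 31), (1, 1, 0, -24, 31), (1, 1, 0, -22, 31), (1, 1, 0, -20, 31), (1, 1, 0, -18, 31), (1, 1, 0, -16, 31), (1, 1, 5, 0, 31), (1, 2, -1, 10, -14), (-1, 4, -1, 6, 2), (-1, 5, -1, 4, -1), (-1, 7, -1, -2, 7), (1, 7, 4, 4, 25), (1, 8, -3, 10, -26), (1, 8, 1, 2, 10), (-1, 10, -3, 6, -10), (1, 10, -1, -2, 8), (1, 13, -1, 2, 1), (1, 13, 3, 8, 19), (-1, 14, -3, -6, 16), (1, 19, 2, 12, 13), (1, 25, 1, 16, 7), (1, 31, 0, 20, 1), (1, 37, -1, 24, -5), (1, 43, -2, 28, -11), (-1, 46, -5, 30, -28), (1, 49, -3, 32, -17), (-1, 52, -7, 34, -40), (1, 55, -4, 36, -23), (-1, 58, -9, 38, -52), (1, 61, -5, 40, -29), (-1, 64, -11, 42, -64),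 (-1, 70, -13, 46, -76), (-1, 76, -15, 50, -88), (-1, 82, -17, 54, -100), (-1, 88, -19, 58, -112)]
  | 3, 4 => [(1, 1, 0, 6, 31), (1, 1, 0, 8, 31), (1, 1, 0, 10, 31), (1, 1, 0, 12, 31), (1, 1, 0, 14, 31), (1, 1, 0, 16, 31), (1, 1, 0, 18, 31), (1, 1, 0, 20, 31), (1, 1, 0, 22, 31), (1, 1, 0, 24, 31), (1, 1, 1, -4, -5), (1, 2, 1, -10, -14), (1, 4, 1, -38, -70), (1, 4, 1, -30, -52), (1, 4, 1, -22, -34), (1, 4, 1, -14, -16), (-1, 5, 1, -4, -1), (1, 5, 2, -2, -1), (-1, 5, 3, 2, 17), (-1, 8, 1, -14, -8), (-1, 8, 1, 2, 10), (-1, 10, 1, 2, 8), (1, 10, 3, -6, -10), (-1, 13, 3, 8, 19), (1, 16, 3, 6, 14), (-1, 17, 4, 10, 23), (-1, 19, 2, 12, 13), (-1, 20, 3, 14, 22), (-1, 22, 3, 14, 20), (-1, 29, 5, 18, 29), (-1, 34, 7, 26, 50)]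
  | 4, 0 => [(1, 1, 0, -14, 31), (1, 1, 0, -12, 31), (1, 1, 0, -10, 31), (1, 1, 0, -8, 31), (1, 1, 0, -6, 31), (1, 1, 0, -4, 31), (1, 1, 0, -2, 31), (1, 1, 0, 0, 31), (1, 1, 0, 2, 31), (1, 1, 0, 4, 31), (-1, 1, 1, -4, -5), (1, 1, 2, -2, -5), (-1, 2, -1, 6, 4), (-1, 2, -1, 10, -14), (-1, 2, 1, -10, -14), (-1, 2, 1, -6, 4), (-1, 4, 1, -38, -70), (-1, 4, 1, -30, -52), (-1, 4, 1, -22, -34), (-1, 4, 1, -14, -16), (-1, 5, -3, -2, 17), (1, 5, 1, -4, -1), (-1, 7, -4, -4, 25), (1, 8, 1, 2, 10), (1, 11, 2, -6, -7), (-1, 13, -3, -8, 19), (1, 14, 1, -10, -2), (1, 20, -3, -14, 22), (1, 22, -3, -14, 20), (1, 28, -1, -18, 8), (1, 31, 0, 0, 1), (1, 32, 7, -2, -2), (1, 34, 1, -22, -4), (1, 40, 3, -26, -16), (1, 46, 5, -30, -28), (1, 52, 7, -34, -40), (1, 58, 9, -38, -52), (1,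 64, 11, -42, -64), (1, 70, 13, -46, -76), (1, 76, 15, -50, -88), (1, 82, 17, -54, -100), (1, 88, 19, -58, -112), (1, 94, 21, -62, -124), (1, 124, 31, -2, -4)]
  | 4, 1 => [(-1, 1, -1, 4, -5), (-1, 1, 0, -14, 31), (-1, 1, 0, -12, 31), (-1, 1, 0, -10, 31), (-1, 1, 0, -8, 31), (-1, 1, 2, -2, -5), (-1, 2, -3, 2, 4), (1, 2, -1, -10, 76), (1, 2, -1, -6, 58), (1, 2, -1, -2, 40), (1, 2, -1, 2, 22), (1, 2, -1, 6, 4), (1, 2, -1, 10, -14), (-1, 4, -3, 2, 2), (1, 4, -1, -2, 20), (-1, 4, 1, -6, 2), (1, 13, -3, -8, 19), (1, 16, -5, -10, 32), (1, 26, -7, -18, 46)]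
  | 4, 2 => [(-1, 1, -5, 0, 31), (-1, 1, -1, 2, 13), (-1, 1, 1, -6, -23), (-1, 1, 2, -2, -5), (-1, 2, 11, -2, -68), (-1, 4, -9, -2, 56), (1, 4, 1, -38, -70), (1, 4, 1, -30, -52), (1, 4, 1, -22, -34), (1, 4, 1, -14, -16), (1, 4, 1, -6, 2), (1, 4, 1, 2, 20), (1, 5, 2, -2, -1), (-1, 5, 6, -4, -37), (1, 7, 3, -4, -11), (-1, 8, 1, 2, 10), (1, 8, 5, -6, -26), (-1, 8, 13, -6, -80), (-1, 10, -7, -6, 44), (1, 10, 3, -6, -10), (-1, 11, 2, -6, -7), (-1, 14, 15, -10, -92), (-1, 16, -5, -10, 32), (-1, 20, 17, -14, -104), (-1, 22, -3, -14, 20), (-1, 26, 19, -18, -116), (-1, 28, -1, -18, 8), (-1, 31, 0, 0, 1), (-1, 32, 7, -2, -2), (-1, 34, 1, -22, -4), (-1, 40, 3, -26, -16), (-1, 46, 5, -30, -28), (-1, 52, 7, -34, -40), (-1, 58, 9, -38, -52), (-1, 64, 11, -42, -64), (-1,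 70, 13, -46, -76), (-1, 76, 15, -50, -88), (-1, 82, 17, -54, -100), (-1, 88, 19, -58, -112), (-1, 94, 21, -62, -124), (-1, 124, 31, -2, -4)]
  | 4, 3 => [(1, 1, 0, -36, 31), (1, 1, 0, -34, 31), (1, 1, 0, -32, 31), (1, 1, 0, -30, 31), (1, 1, 0, -28, 31), (1, 1, 0, -26, 31), (1, 1, 0, -24, 31), (1, 1, 0, -22, 31), (1, 1, 0, -20, 31), (1, 1, 0, -18, 31), (1, 1, 0, -16, 31), (1, 2, -1, 10, -14), (1, 2, 1, -6, 4), (-1, 4, -1, 6, 2), (-1, 5, -1, 4, -1), (-1, 7, -1, -2, 7), (-1, 8, -1, -2, 10), (-1, 14, -3, -6, 16), (-1, 16, -3, -6, 14), (-1, 17, -4, -10, 23), (-1, 19, -2, -12, 13), (-1, 20, -3, -14, 22), (-1, 22, -3, -14, 20), (-1, 29, -5, -18, 29), (-1, 44, -5, -26, 28)]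
  | 4, 4 => [(1, 1, 0, 6, 31), (1, 1, 0, 8, 31), (1, 1, 0, 10, 31), (1, 1, 0, 12, 31), (1, 1, 0, 14, 31), (1, 1, 0, 16, 31), (1, 1, 0, 18, 31), (1, 1, 0, 20, 31), (1, 1, 0, 22, 31), (1, 1, 0, 24, 31), (-1, 1, 2, -2, -5), (1, 2, 1, -10, -14), (1, 4, 1, -38, -70), (1, 4, 1, -30, -52), (1, 4, 1, -22, -34), (1, 4, 1, -14, -16), (-1, 5, 1, -4, -1), (1, 7, -4, -4, 25), (-1, 7, 2, -6, -11), (1, 8, -1, -2, 10), (-1, 8, 1, -14, -8), (-1, 8, 1, 2, 10), (-1, 11, 2, -6, -7), (1, 13, -3, -8, 19), (1, 13, 1, -2, 1), (1, 19, -2, -12, 13), (1, 25, -1, -16, 7), (1, 31, 0, -20, 1), (-1, 31, 0, 0, 1), (-1, 32, 7, -2, -2), (1, 37, 1, -24, -5), (1, 38, 3, -22, -14), (1, 43, 2, -28, -11), (1, 49, 3, -32, -17), (-1, 52, 7, -34, -40), (1, 55, 4, -36, -23), (-1, 58, 9, -38, -52), (1,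 61, 5, -40, -29), (-1, 64, 11, -42, -64), (-1, 70, 13, -46, -76), (-1, 76, 15, -50, -88), (-1, 82, 17, -54, -100), (-1, 88, 19, -58, -112), (-1, 94, 21, -62, -124), (-1, 124, 31, -2, -4)]

/-- The three relations as rows of five lists: `relT ρ f`. -/
def relT : Fin 3 → Fin 5 → List Tm
  | 0, 0 => [(1, 1, 0, 0, 1), (1, 4, -1, 2, -4)]
  | 0, 1 => [(-1, 1, 0, 0, 1), (-1, 4, -1, 2, -4)]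
  | 0, 2 => []
  | 0, 3 => [(-1, 1, 0, 0, 1), (-1, 4, -1, 2, -4)]
  | 0, 4 => []
  | 1, 0 => [(1, 1, 0, 0, 1), (1, 4, 1, -2, -4)]
  | 1, 1 => []
  | 1, 2 => [(-1, 1, 0, 0, 1), (-1, 4, 1, -2, -4)]
  | 1, 3 => []
  | 1, 4 => [(-1, 1, 0, 0, 1), (-1, 4, 1, -2, -4)]
  | 2, 0 => []
  | 2, 1 => [(-1, 1, 0, 0, 1)]
  | 2, 2 => [(1, 1, 1, 0, 1)]
  | 2, 3 => [(-1, 8, -1, 2, -2)]
  | 2, 4 => [(1, 10, 1, 2, 2)]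

/-- Multipliers of the relations for `T_13 + 1`: `mUT i ρ`. -/
def mUT : Fin 5 → Fin 3 → List Tm
  | 0, 0 => [(-1, 1, 0, 0, 1), (-1, 1, 0, 2, 1), (-1, 1, 1, 0, 1), (1, 1, 2, 0, 1)]
  | 0, 1 => [(-1, 1, 0, 0, 1), (-1, 1, 0, 1, 1), (-1, 10, 1, 1, 1), (1, 1, 2, 0, 1)]
  | 0, 2 => [(-1, 1, 0, 0, 1), (-1, 1, 0, 1, 1), (1, 1, 1, 0, 1), (1, 10, 1, 1, 1), (-1, 1, 2, 0, 1), (-1, 4, 0, 0, 1), (1, -1, 0, 0, 1), (-1, -1, 0, 1, 1), (-1, -1, -1, 0, 1)]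
  | 1, 0 => [(-1, 1, 0, 1, 1), (-1, 1, 0, 2, 1), (-1, 10, 1, 1, 1), (-1, 4, 0, 0, 1)]
  | 1, 1 => [(-1, 1, 0, 0, 1), (1, 1, 0, 1, 1), (1, 1, 0, 2, 1), (1, 1, 1, 0, 1), (1, 1, 2, 0, 1), (1, 4, 0, 0, 1)]
  | 1, 2 => [(1, 1, 0, 1, 1), (-1, 1, 0, 2, 1), (-1, 1, 2, 0, 1), (-1, -1, 0, 0, 1), (-1, -1, -1, 0, 1)]
  | 2, 0 => [(1, 1, 0, 0, 1), (1, 1, 0, 2, 1), (1, 1, 1, 0, 1), (1, 10, 1, 1, 1), (1, 4, 0, 0, 1)]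
  | 2, 1 => [(1, 1, 0, 1, 1), (1, 1, 1, 0, 1), (1, 10, 1, 1, 1), (-1, 4, 0, 0, 1)]
  | 2, 2 => [(-1, 1, 0, 0, 1), (-1, 1, 0, 2, 1), (-1, 1, 2, 0, 1), (1, 4, 0, 0, 1), (1, -1, 0, 0, 1), (1, -1, 0, 1, 1), (1, -1, -1, 0, 1)]
  | 3, 0 => [(-1, 1, 0, 0, 1), (1, 1, 0, 1, 1), (-1, 1, 0, 2, 1), (1, 1, 1, 0, 1), (-1, 10, 1, 1, 1), (1, 1, 2, 0, 1), (1, 4, 0, 0, 1)]
  | 3, 1 => [(1, 1, 0, 1, 1), (-1, 1, 0, 2, 1), (-1, 4, 0, 0, 1)]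
  | 3, 2 => [(-1, 1, 0, 1, 1), (-1, 1, 1, 0, 1), (1, 10, 1, 1, 1), (-1, 1, 2, 0, 1), (1, 4, 0, 0, 1), (-1, -1, 0, 0, 1), (-1, -1, 0, 1, 1)]
  | 4, 0 => [(-1, 1, 0, 0, 1), (-1, 1, 0, 1, 1), (1, 1, 0, 2, 1), (-1, 1, 1, 0, 1), (1, 1, 2, 0, 1), (1, 4, 0, 0, 1)]
  | 4, 1 => [(1, 1, 0, 0, 1), (-1, 1, 0, 1, 1), (1, 1, 0, 2, 1), (1, 1, 1, 0, 1), (-1, 1, 2, 0, 1), (-1, 4, 0, 0, 1)]
  | 4, 2 => [(-1, 1, 0, 0, 1), (1, 1, 0, 1, 1), (1, 1, 1, 0, 1), (-1, 1, 2, 0, 1), (-1, 4, 0, 0, 1), (-1, -1, 0, 0, 1), (-1, -1, -1, 0, 1)]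

/-- Multipliers of the relations for `T_31 + T_5² - T_7 - T_13 - 1`. -/
def mVT : Fin 5 → Fin 3 → List Tm
  | 0, 0 => [(1, 1, 0, 0, 1), (-1, 1, 0, 2, 1), (-1, 1, 0, 4, 1), (1, 1, 1, 0, 1), (1, 10, 1, 1, 1), (1, 19, 1, 2, 1), (-1, 28, 1, 3, 1), (-1, 1, 2, 0, 1), (1, 19, 2, 1, 1), (1, 4, 0, 0, 1), (1, 4, 0, 2, 1), (1, 4, 4, 0, 1), (1, 4, 8, 0, 1)]
  | 0, 1 => [(1, 1, 0, 0, 1), (1, 1, 0, 2, 1), (-1, 1, 0, 3, 1), (-1, 1, 1, 0, 1), (-1, 19, 1, 2, 1), (-1, 19, 2, 1, 1), (-1, 37, 2, 2, 1), (-1, 1, 3, 0, 1), (-1, 28, 3, 1, 1), (1, 1, 4, 0, 1), (1, 4, 0, 1, 1), (-1, 4, 0, 2, 1), (1, 4, 4, 0, 1), (1, 4, 8, 0, 1)]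
  | 0, 2 => [(1, 1, 0, 1, 1), (-1, 1, 0, 4, 1), (-1, 1, 1, 0, 1), (1, 10, 1, 1, 1), (1, 19, 1, 2, 1), (-1, 19, 2, 1, 1), (-1, 37, 2, 2, 1), (-1, 1, 3, 0, 1), (-1, 28, 3, 1, 1), (1, 1, 4, 0, 1), (-1, 4, 0, 0, 1), (-1, 4, 0, 1, 1), (-1, 4, 0, 2, 1), (-1, 4, 4, 0, 1), (-1, 40, 4, 1, 1), (1, -1, 0, 0, 1), (1, -1, 0, 1, 1), (-1, -19, -1, 2, 1), (1, -19, -2, 1, 1), (-1, -1, -3, 0, 1), (1, -4, 0, 0, 1), (1, -4, 0, 1, 1)]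
  | 1, 0 => [(1, 1, 0, 0, 1), (-1, 1, 0, 1, 1), (1, 1, 0, 2, 1), (1, 1, 0, 3, 1), (1, 1, 0, 4, 1), (-1, 1, 1, 0, 1), (-1, 19, 1, 2, 1), (1, 1, 2, 0, 1), (-1, 19, 2, 1, 1), (-1, 37, 2, 2, 1), (-1, 1, 3, 0, 1), (-1, 28, 3, 1, 1), (-1, 4, 0, 0, 1), (-1, 4, 0, 2, 1), (1, 16, 0, 0, 1)]
  | 1, 1 => [(1, 1, 0, 0, 1), (-1, 1, 0, 1, 1), (1, 1, 0, 2, 1), (1, 1, 0, 3, 1), (-1, 1, 0, 4, 1), (1, 19, 1, 2, 1), (1, 19, 2, 1, 1), (1, 37, 2, 2, 1), (-1, 1, 4, 0, 1), (1, 4, 0, 0, 1), (-1, 40, 4, 1, 1), (1, 4, 8, 0, 1), (-1, 16, 0, 0, 1)]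
  | 1, 2 => [(-1, 1, 0, 2, 1), (-1, 1, 1, 0, 1), (-1, 28, 1, 3, 1), (1, 1, 2, 0, 1), (-1, 19, 2, 1, 1), (1, 1, 4, 0, 1), (-1, 4, 0, 1, 1), (1, 40, 4, 1, 1), (1, 16, 0, 0, 1), (-1, -1, 0, 1, 1), (-1, -1, 0, 2, 1), (1, -1, -1, 0, 1), (1, -19, -2, 1, 1), (-1, -1, -3, 0, 1), (-1, -4, 0, 0, 1)]
  | 2, 0 => [(-1, 1, 0, 0, 1), (-1, 1, 0, 1, 1), (-1, 1, 0, 2, 1), (1, 1, 0, 4, 1), (1, 10, 1, 1, 1), (-1, 19, 1, 2, 1), (-1, 1, 2, 0, 1), (-1, 19, 2, 1, 1), (-1, 37, 2, 2, 1), (-1, 1, 3, 0, 1), (1, 28, 3, 1, 1), (1, 4, 0, 0, 1), (-1, 4, 0, 2, 1), (-1, 4, 4, 0, 1), (-1, 4, 8, 0, 1), (-1, 16, 0, 0, 1)]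
  | 2, 1 => [(1, 1, 0, 0, 1), (-1, 1, 0, 1, 1), (1, 1, 0, 3, 1), (-1, 1, 1, 0, 1), (1, 10, 1, 1, 1), (1, 19, 1, 2, 1), (-1, 28, 1, 3, 1), (-1, 1, 2, 0, 1), (1, 37, 2, 2, 1), (-1, 1, 3, 0, 1), (-1, 1, 4, 0, 1), (1, 4, 0, 1, 1), (1, 4, 4, 0, 1), (1, 4, 8, 0, 1)]
  | 2, 2 => [(1, 1, 0, 0, 1), (-1, 1, 0, 1, 1), (1, 1, 0, 2, 1), (1, 1, 0, 3, 1), (1, 1, 0, 4, 1), (1, 1, 1, 0, 1), (1, 10, 1, 1, 1), (1, 19, 1, 2, 1), (1, 28, 1, 3, 1), (1, 37, 2, 2, 1), (-1, 1, 3, 0, 1), (1, 28, 3, 1, 1), (1, 1, 4, 0, 1), (1, 4, 0, 0, 1), (1, 4, 0, 1, 1), (-1, 4, 0, 2, 1), (-1, 4, 4, 0, 1), (-1, 40, 4, 1, 1), (1, 4, 8, 0, 1), (-1, 16, 0, 0, 1), (-1, -1, 0, 0, 1), (-1, -1, 0, 1, 1), (-1, -1, 0, 3, 1), (-1, -1, -1, 0, 1), (-1, -19, -1, 2, 1), (-1, -1, -2, 0, 1), (1, -19, -2, 1, 1), (1,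 -1, -3, 0, 1), (1, -4, 0, 0, 1), (-1, -4, 0, 1, 1), (1, -4, -4, 0, 1)]
  | 3, 0 => [(1, 1, 0, 0, 1), (-1, 1, 0, 1, 1), (1, 1, 0, 2, 1), (1, 1, 0, 4, 1), (-1, 10, 1, 1, 1), (1, 19, 1, 2, 1), (-1, 1, 2, 0, 1), (1, 19, 2, 1, 1), (1, 1, 3, 0, 1), (1, 28, 3, 1, 1), (-1, 4, 4, 0, 1), (1, 4, 8, 0, 1), (-1, 16, 0, 0, 1)]
  | 3, 1 => [(-1, 1, 0, 0, 1), (1, 1, 0, 1, 1), (1, 1, 0, 2, 1), (-1, 1, 0, 4, 1), (1, 1, 1, 0, 1), (-1, 10, 1, 1, 1), (1, 19, 1, 2, 1), (-1, 1, 2, 0, 1), (1, 19, 2, 1, 1), (1, 37, 2, 2, 1), (1, 28, 3, 1, 1), (-1, 1, 4, 0, 1), (-1, 4, 0, 0, 1), (-1, 4, 0, 2, 1), (-1, 4, 8, 0, 1), (1, 16, 0, 0, 1)]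
  | 3, 2 => [(-1, 1, 0, 1, 1), (-1, 1, 0, 2, 1), (1, 1, 0, 3, 1), (1, 1, 0, 4, 1), (1, 1, 1, 0, 1), (-1, 19, 1, 2, 1), (1, 28, 1, 3, 1), (1, 1, 2, 0, 1), (-1, 19, 2, 1, 1), (1, 37, 2, 2, 1), (1, 1, 4, 0, 1), (1, 4, 0, 0, 1), (-1, 4, 0, 1, 1), (-1, 4, 0, 2, 1), (-1, 4, 8, 0, 1), (-1, 16, 0, 0, 1), (-1, -1, 0, 0, 1), (1, -1, 0, 2, 1), (1, -1, 0, 3, 1), (-1, -1, -1, 0, 1), (1, -19, -1, 2, 1), (-1, -1, -2, 0, 1), (1, -19, -2, 1, 1), (-1, -1, -3, 0, 1), (1, -4, 0, 0, 1), (1, -4, -4, 0, 1)]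
  | 4, 0 => [(-1, 1, 0, 0, 1), (1, 1, 0, 2, 1), (1, 1, 0, 4, 1), (-1, 19, 1, 2, 1), (1, 28, 1, 3, 1), (1, 1, 2, 0, 1), (1, 19, 2, 1, 1), (-1, 37, 2, 2, 1), (-1, 28, 3, 1, 1), (1, 1, 4, 0, 1), (1, 4, 0, 2, 1), (-1, 4, 4, 0, 1), (1, 4, 8, 0, 1), (1, 16, 0, 0, 1)]
  | 4, 1 => [(1, 1, 0, 1, 1), (1, 1, 0, 2, 1), (1, 1, 0, 4, 1), (1, 1, 1, 0, 1), (1, 10, 1, 1, 1), (-1, 19, 1, 2, 1), (-1, 1, 2, 0, 1), (1, 37, 2, 2, 1), (1, 1, 3, 0, 1), (1, 28, 3, 1, 1), (-1, 1, 4, 0, 1), (1, 4, 0, 2, 1), (1, 4, 4, 0, 1), (1, 40, 4, 1, 1), (-1, 16, 0, 0, 1)]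
  | 4, 2 => [(1, 1, 0, 0, 1), (1, 19, 1, 2, 1), (1, 1, 2, 0, 1), (-1, 19, 2, 1, 1), (1, 37, 2, 2, 1), (-1, 1, 4, 0, 1), (1, 4, 0, 1, 1), (1, 4, 0, 2, 1), (-1, 4, 4, 0, 1), (-1, 40, 4, 1, 1), (-1, 4, 8, 0, 1), (1, 16, 0, 0, 1), (1, -1, 0, 0, 1), (1, -1, 0, 1, 1), (-1, -1, 0, 2, 1), (-1, -1, 0, 3, 1), (-1, -19, -1, 2, 1), (-1, -1, -2, 0, 1), (-1, -4, 0, 0, 1), (-1, -4, 0, 1, 1), (-1, -4, -4, 0, 1)]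

/-- Multipliers of the relations for `T_7 + 1`. -/
def mAT : Fin 5 → Fin 3 → List Tm
  | 0, 0 => [(-1, 1, 0, 0, 1), (1, 1, 0, 1, 1), (-1, 1, 1, 0, 1), (1, 10, 1, 1, 1), (1, 1, 2, 0, 1), (-1, 4, 0, 0, 1)]
  | 0, 1 => [(-1, 1, 0, 2, 1), (1, 10, 1, 1, 1)]
  | 0, 2 => [(1, 1, 0, 1, 1), (1, 1, 0, 2, 1), (-1, 10, 1, 1, 1), (1, 4, 0, 0, 1), (1, -1, 0, 0, 1), (1, -1, -1, 0, 1)]
  | 1, 0 => [(-1, 1, 0, 0, 1), (1, 1, 0, 1, 1)]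
  | 1, 1 => [(1, 1, 0, 0, 1), (-1, 1, 0, 1, 1), (-1, 1, 1, 0, 1)]
  | 1, 2 => [(-1, 1, 0, 0, 1), (1, 1, 0, 1, 1), (-1, -1, 0, 0, 1)]
  | 2, 0 => [(1, 1, 1, 0, 1)]
  | 2, 1 => [(-1, 1, 0, 0, 1), (-1, 1, 0, 1, 1), (-1, 1, 1, 0, 1)]
  | 2, 2 => []
  | 3, 0 => [(-1, 1, 0, 0, 1)]
  | 3, 1 => [(-1, 1, 0, 0, 1), (1, 1, 0, 1, 1), (-1, 1, 1, 0, 1)]
  | 3, 2 => [(1, 1, 0, 0, 1), (1, 1, 0, 1, 1)]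
  | 4, 0 => []
  | 4, 1 => [(-1, 1, 0, 0, 1), (1, 1, 0, 1, 1)]
  | 4, 2 => [(1, 1, 0, 1, 1), (1, -1, 0, 0, 1)]

/-- Multipliers of the relations for `T_5`. -/
def m5T : Fin 5 → Fin 3 → List Tm
  | 0, 0 => []
  | 0, 1 => [(1, 1, 0, 0, 1)]
  | 0, 2 => [(1, 1, 0, 1, 1), (-1, 1, 1, 0, 1), (-1, -1, 0, 0, 1)]
  | 1, 0 => [(-1, 1, 0, 0, 1)]
  | 1, 1 => [(-1, 1, 0, 0, 1)]
  | 1, 2 => [(-1, 1, 0, 0, 1)]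
  | 2, 0 => [(-1, 1, 0, 0, 1)]
  | 2, 1 => [(-1, 1, 0, 0, 1)]
  | 2, 2 => []
  | 3, 0 => [(1, 1, 0, 0, 1)]
  | 3, 1 => [(1, 1, 0, 0, 1)]
  | 3, 2 => [(1, 1, 0, 0, 1)]
  | 4, 0 => [(1, 1, 0, 0, 1)]
  | 4, 1 => [(1, 1, 0, 0, 1)]
  | 4, 2 => [(-1, 1, 0, 0, 1)]

end Pool.Agent.Helper93.TH3
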