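import Pool.Agent.Helper93.TH3.Edge
import Pool.Agent.Helper93.TH3.Lists
import Pool.Agent.Helper93.TLH.StB
import Pool.Agent.Helper78.W3.StD

/-!
# Project TH (levels `2·3^n`, `W_2 = +1`): lower bound

Models: `Helper4/TH/StD.lean` (levels `2·5^n`, proved; modules `Pool/Agent/*/TH/M_*.lean`) and `Helper78/W3/StD.lean` (levels `3^n`; modules `Pool/Agent/*/W3/M_*.lean`). The operator calculus on plane functions (`tr`, `op3`, `opL`, `mulL`, `Wd3`, `Lw`, `dX`, `dY`, `oD`, `oN`, `sS`, `M5`, `bb3`, and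
the proved statements `S3Trm, S3Low0, S3Nf, S3Exp, S3Lw1, S3Bb, S3PlA`) is the one of W3, unchanged: the plane is `ZMod (3^r) × ZMod (3^s)`, `(k, a, b, c, d)` stands for `k` times the operator of `(a 3b; 3c d)`. There are matrices of determinant two (`HTy`, second case). The five plane functions of a symbol are the
values on the paths `g{0,∞}`, `g{1,∞}`, `g{-1,∞}`, `g{0,1/2}`, `g{0,-1/2}`. `A = (1 3; 0 1)`; `σ = (4 -3; 6 -4)` exchanges `1/2` and `1`; `σ' = (4 3; -6 -4)` exchanges `-1/2` and `-1`; `γ = (8 -3; 6 -2)` maps `1/2 → 1`, `0 → 3/2`; `γ' = (10 3; 6 2)` maps `-1/2 → 2`, `0 → 3/2` (all four of determinant two).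
The Hecke operator of level `(r, s)` is `Tl l (3^r)`, `l ≠ 2, 3`. All rows, certificates, leading forms and counts were checked by machine.
-/

set_option autoImplicit false

namespace Pool.Agent.Helper93.TH3

open Pool.Agent.Helper14.CV (Homog EqC act Tl StFar StFex)
open Pool.Agent.Helper28.WK (Tw evw)
open Pool.Agent.Helper78.W3 (tr Fn3 Tm opL op3 mulL negL Wd3 dX dY oD oN Lw sS M5 bb3 S3PlA S3Trm S3Low0 S3Nf S3Exp S3Lw1 S3Bb)
open Pool.Agent.Helper93.TLH (HTy SymH SHHk SHHkS LBH)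
open Pool.Agent.Helper93.TLE (DDE)

/-! ### Plane functions -/

/-- TRE (from EDG, PLT). Values on translated paths: for `γ = (a 3b; 3c d)` of type `HTy` the path from `γ v` to `γ u` at the point `p` is the path from `v` to `u` at `p γ`: the standard matrix `g0` has determinant one and even lower left entry, so `g0 γ` has the type of
`γ` and the coordinates `p γ` (EDG). Model: `Pool/Agent/Helper36/TH/M_Tre.lean`. -/
def TTre : Prop := ∀ (R : Type) (_ : AddCommGroup R) (r s : ℕ) (G : ℤ → ℤ → R), SymH 3 (r + 1) (s + 1) G →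
  ∀ (a b c d u1 u2 v1 v2 : ℤ), HTy a (3 * b) (3 * c) d → (u1 ≠ 0 ∨ u2 ≠ 0) → (v1 ≠ 0 ∨ v2 ≠ 0) →
  ∀ (x : ZMod (3 ^ r)) (y : ZMod (3 ^ s)),
  edgeT (a * u1 + 3 * b * u2) (3 * c * u1 + d * u2) (a * v1 + 3 * b * v2) (3 * c * v1 + d * v2) G x y =
    tr a b c d (edgeT u1 u2 v1 v2 G) x y

/-- The basic paths `(w, z)`, from `z` to `w`: `0 → ∞`, `1 → ∞`, `-1 → ∞`, `0 → 1/2`, `0 → -1/2`. -/
def bsT : Fin 5 → ℤ × ℤ × ℤ × ℤ
  | 0 => (1, 0, 0, 1)
  | 1 => (1, 0, 1, 1)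
  | 2 => (1, 0, -1, 1)
  | 3 => (1, 2, 0, 1)
  | 4 => (-1, 2, 0, 1)

/-- The five plane functions of a symbol: `F0(g) = G(g∞) - G(g0)`, `F1(g) = G(g∞) - G(g1)`, `F2(g) = G(g∞) - G(g(-1))`, `F3(g) = G(g½) - G(g0)`, `F4(g) = G(g(-½)) - G(g0)`. -/
noncomputable def pfT {R : Type} [AddCommGroup R] {q q' : ℕ} (G : ℤ → ℤ → R) (i : Fin 5) :
    ZMod q → ZMod q' → R :=
  fun x y => edgeT (bsT i).1 (bsT i).2.1 (bsT i).2.2.1 (bsT i).2.2.2 G x y

/-- The function of the path from `1/2` to `1`. -/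
def kT {R : Type} [AddCommGroup R] {q q' : ℕ} (F : Fin 5 → ZMod q → ZMod q' → R) : ZMod q → ZMod q' → R :=
  fun x y => F 0 x y - F 1 x y - F 3 x y

/-- The function of the path from `-1/2` to `-1`. -/
def kT' {R : Type} [AddCommGroup R] {q q' : ℕ} (F : Fin 5 → ZMod q → ZMod q' → R) : ZMod q → ZMod q' → R :=
  fun x y => F 0 x y - F 2 x y - F 4 x y

/-- The relations between the five functions: `k + k∘σ = 0`, `k' + k'∘σ' = 0`, `-F1 + F2∘A - F3∘γ + F4∘γ' = 0`. -/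
def RelT {R : Type} [AddCommGroup R] {q q' : ℕ} (F : Fin 5 → ZMod q → ZMod q' → R) : Prop :=
  (∀ x y, kT F x y + tr 4 (-1) 2 (-4) (kT F) x y = 0) ∧
  (∀ x y, kT' F x y + tr 4 1 (-2) (-4) (kT' F) x y = 0) ∧
  ∀ x y, -F 1 x y + tr 1 1 0 1 (F 2) x y - tr 8 (-1) 2 (-2) (F 3) x y + tr 10 1 2 2 (F 4) x y = 0

/-- REL (from TRE). The plane functions of a symbol satisfy the relations. `kT = (G(g∞) - G(g0)) - (G(g∞) - G(g1)) - (G(g½) - G(g0)) = G(g1) - G(g½)`, and `σ` exchanges `1/2` and `1` (TRE with the vectors `σ(1, 2) = (-2, -2)`, `σ(1, 1) = (1, 2)` and `Homog`); the same for `kT'`, `σ'`. Third: the square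
`∞ → 1 → 3/2 → 2 → ∞`: `-F1` is `∞ → 1`; `F2∘A` is `2 → ∞`; `-F3∘γ` is `1 → 3/2` (`γ½ = 1`, `γ0 = 3/2`), `F4∘γ'` is `3/2 → 2` (`γ'(-½) = 2`, `γ'0 = 3/2`). Model: `Pool/Agent/Helper36/TH/M_Rel.lean`. -/
def TRel : Prop := ∀ (R : Type) (_ : AddCommGroup R) (r s : ℕ) (G : ℤ → ℤ → R),
  SymH 3 (r + 1) (s + 1) G → RelT (fun i => (pfT G i : ZMod (3 ^ r) → ZMod (3 ^ s) → R))

/-- EXA (from TRM). For a solution `F` of the relations a function `V` on the matrices `g = (a b; c d)` of determinant one with `c` even (the future value `G(g∞) - G(g0)`). Definition, for `g` of type `HTy` (both types, needed in the proof): let `p(γ) = (b/a, c/d)` for `γ = (a 3b; 3c d)`, `S' = (0 -1; 2 0)`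
(`g S' = (2b -a; 2d -c)`, of type two if `g` is of type one, and `2` times a matrix of type one if `g` is of type two), `T = (1 1; 0 1)`, `e = (1 0; 2 1)`, `e' = (1 0; -2 1)`, `κ = (2 1; 2 2)`, `κ' = (-2 1; 2 -2)`. The class of `g` is the pair of points `((a : b), (c : d))` of the projective line over `ZMod 3` (12 classes; left
multiplication by `(α 3β; 3γ δ)` does not change it; `g ρ⁻¹` has the form `(* 3*; 3* *)` if and only if `g` and `ρ` have the same class). `V g = F0(p(g))` in the class of `1`, `F1(p(g T⁻¹))` in the class of `T`, `F2(p(g T))` in the class of `T⁻¹`, `F3(p(g e⁻¹))`, `F4(p(g e'⁻¹))` in the classes of `e`, `e'`, `k(p(g adj κ))`, `k'(p(g adj κ'))`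
in the classes of `κ`, `κ'` (`k = kT F`, `k' = kT' F`; `p` does not change under scalars), and `V g = -V(g S')` in the classes of `S', TS', T⁻¹S', eS', e'S'`. Then `V (g S') = -V g` for all `g` of type `HTy`: clear except in the classes of `κ`, `κ'`, where `κ S' = σ κ` and `κ' S' = -σ' κ'` and the first two relations give it.
SQUARE RELATION `V(g) + V(gR) + V(gR²) + V(gR³) = 0`, `R = (2 -1; 2 0) = T S'` (it maps `1/2 → 0 → ∞ → 1 → 1/2`; the relation for `gR` is the one for `g`, so one `g` in each of the three orbits of classes is enough): up to scalars `R² = κS'`, `R³ = eS'`: `g = γ`: `F0 - F1 - k - F3 = 0`, the definition of `k`; `g = γT⁻¹`: `T⁻¹R = S'`,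
`T⁻¹R² = e'`, `T⁻¹R³ = κ'`: `F2 - F0 + F4 + k' = 0`, the definition of `k'`; `g = γT`: `TR = T²S' = A T⁻¹ S'`, `TR² = (3 -2; 2 -1) = γ' e' S'`, `TR³ = (2 -3; 2 -2) = γ e`: `F1(p) - F2(pA) - F4(pγ') + F3(pγ) = 0`, the third relation. Up to scalars `R² = (1 -1; 2 -1)`, `R S' = (1 1; 0 1)`, `R³ S' = (1 0; 2 1)`: with
`V(gR) = -V(gRS')`, `V(gR³) = -V(gR³S')` the square relation is the second statement below. The third and the fourth: left multiplication by the group does not change the class and the coordinates (`γ' g`, also for `γ' = (2α β; 2γ 2δ)` of determinant two; in the fourth statement the matrix on the left is `γ' g S'/2`, `g = (a b; 2c d)`).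
Last: definition in the classes of `1, T, T⁻¹, e, e'`. Model: `Pool/Agent/Helper70/TH/M_ExA.lean`. -/
def TExA : Prop := ∀ (R : Type) (_ : AddCommGroup R) (r s : ℕ)
  (F : Fin 5 → ZMod (3 ^ r) → ZMod (3 ^ s) → R), RelT F →
  ∃ V : ℤ → ℤ → ℤ → ℤ → R,
    (∀ a b c d : ℤ, a * d - b * c = 1 → (2 : ℤ) ∣ c → V (-a) (-b) (-c) (-d) = V a b c d) ∧
    (∀ a b c d : ℤ, a * d - b * c = 1 → (2 : ℤ) ∣ c → V a b c d =
      V a (a + b) c (c + d) + V (a + 2 * b) b (c + 2 * d) d - V (a + 2 * b) (-(a + b)) (c + 2 * d) (-(c + d))) ∧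
    (∀ α β γ δ a b c d : ℤ, α * δ - β * γ = 1 → (2 : ℤ) ∣ γ → (3 : ℤ) ^ (r + 1) ∣ β → (3 : ℤ) ^ (s + 1) ∣ γ →
      a * d - b * c = 1 → (2 : ℤ) ∣ c → V (α * a + β * c) (α * b + β * d) (γ * a + δ * c) (γ * b + δ * d) = V a b c d) ∧
    (∀ α β γ δ a b c d : ℤ, 2 * α * δ - β * γ = 1 → (3 : ℤ) ^ (r + 1) ∣ β → (3 : ℤ) ^ (s + 1) ∣ γ →
      a * d - 2 * b * c = 1 → V (2 * α * b + β * d) (-(α * a + β * c)) (2 * (γ * b + δ * d)) (-(γ * a + 2 * δ * c)) =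
        -V a b (2 * c) d) ∧
    (∀ (x : ZMod (3 ^ r)) (y : ZMod (3 ^ s)) (a b c d : ℤ), a * d - 3 * b * (3 * c) = 1 → (2 : ℤ) ∣ c →
      (b : ZMod (3 ^ r)) = x * a → (c : ZMod (3 ^ s)) = y * d →
      V a (3 * b) (3 * c) d = F 0 x y ∧ V a (a + 3 * b) (3 * c) (3 * c + d) = F 1 x y ∧
      V a (3 * b - a) (3 * c) (d - 3 * c) = F 2 x y ∧
      V (a + 6 * b) (3 * b) (3 * c + 2 * d) d = F 3 x y ∧
      V (a - 6 * b) (3 * b) (3 * c - 2 * d) d = F 4 x y)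

/-- EXB (from PLT, FEX, FAR; no EXA needed: the function `V` is given by its properties). Every solution of the relations comes from a symbol. Proof as in the docstring of `TExB` of `Helper4/TH/StD.lean` (only the last property is used with the standard matrix `(1, 3X; 3Y, 1 + 9XY)`: `F0 = V(g)`, `F1 = V(gT)`,
`F2 = V(gT⁻¹)`, `F3 = V(ge)`, `F4 = V(ge')`, and `V(g) = G(g∞) - G(g0)` for `g` of determinant one with even lower left entry; `gT0 = g1`, `ge∞ = g½`, `ge'∞ = g(-½)`). Model: `Pool/Agent/Helper85/TH/M_ExB.lean`. -/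
def TExB : Prop := ∀ (R : Type) (_ : AddCommGroup R) (r s : ℕ)
  (F : Fin 5 → ZMod (3 ^ r) → ZMod (3 ^ s) → R) (V : ℤ → ℤ → ℤ → ℤ → R),
    (∀ a b c d : ℤ, a * d - b * c = 1 → (2 : ℤ) ∣ c → V (-a) (-b) (-c) (-d) = V a b c d) →
    (∀ a b c d : ℤ, a * d - b * c = 1 → (2 : ℤ) ∣ c → V a b c d =
      V a (a + b) c (c + d) + V (a + 2 * b) b (c + 2 * d) d - V (a + 2 * b) (-(a + b)) (c + 2 * d) (-(c + d))) →
    (∀ α β γ δ a b c d : ℤ, α * δ - β * γ = 1 → (2 : ℤ) ∣ γ → (3 : ℤ) ^ (r + 1) ∣ β → (3 : ℤ) ^ (s + 1) ∣ γ →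
      a * d - b * c = 1 → (2 : ℤ) ∣ c → V (α * a + β * c) (α * b + β * d) (γ * a + δ * c) (γ * b + δ * d) = V a b c d) →
    (∀ α β γ δ a b c d : ℤ, 2 * α * δ - β * γ = 1 → (3 : ℤ) ^ (r + 1) ∣ β → (3 : ℤ) ^ (s + 1) ∣ γ →
      a * d - 2 * b * c = 1 → V (2 * α * b + β * d) (-(α * a + β * c)) (2 * (γ * b + δ * d)) (-(γ * a + 2 * δ * c)) =
        -V a b (2 * c) d) →
    (∀ (x : ZMod (3 ^ r)) (y : ZMod (3 ^ s)) (a b c d : ℤ), a * d - 3 * b * (3 * c) = 1 → (2 : ℤ) ∣ c →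
      (b : ZMod (3 ^ r)) = x * a → (c : ZMod (3 ^ s)) = y * d →
      V a (3 * b) (3 * c) d = F 0 x y ∧ V a (a + 3 * b) (3 * c) (3 * c + d) = F 1 x y ∧
      V a (3 * b - a) (3 * c) (d - 3 * c) = F 2 x y ∧
      V (a + 6 * b) (3 * b) (3 * c + 2 * d) d = F 3 x y ∧
      V (a - 6 * b) (3 * b) (3 * c - 2 * d) d = F 4 x y) →
  ∃ G : ℤ → ℤ → R, SymH 3 (r + 1) (s + 1) G ∧ ∀ i, pfT G i = F i

/-- EX (from EXA, EXB; proved below). -/
def TEx : Prop := ∀ (R : Type) (_ : AddCommGroup R) (r s : ℕ)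
  (F : Fin 5 → ZMod (3 ^ r) → ZMod (3 ^ s) → R), RelT F →
  ∃ G : ℤ → ℤ → R, SymH 3 (r + 1) (s + 1) G ∧ ∀ i, pfT G i = F i

theorem hEx (ha : TExA) (hb : TExB) : TEx := by
  intro R _ r s F hF
  obtain ⟨V, h1, h2, h3, h4, h5⟩ := ha R _ r s F hF
  exact hb R _ r s F V h1 h2 h3 h4 h5

/-- UNI (from EDG, PLT, FAR). A symbol with `F0 = ... = F4 = 0` is constant. For `γ = (a 3b; 3c d)` of type `HTy` (any plane point) `G` has the same value at `γ∞, γ0, γ1, γ(-1), γ½, γ(-½)` (EDG). For `g` of type `HTy` this gives `G(g∞) = G(g0)` by the classes of EXA: `g ρ⁻¹ = γ` (up to a scalar) for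
`ρ` one of `1, T, T⁻¹, e, e', κ, κ'` (`ρ{0,∞}` is `{0,∞}, {1,∞}, {-1,∞}, {0,½}, {0,-½}, {½,1}, {-½,-1}` up to the orientation) or one of these after replacing `g` by `g S'`, `S' = (0 -1; 2 0)` (divided by `2` if `g` has type two), which exchanges the two ends. For an edge `(a b; c d)` of determinant one:
`c` even: type one; `d` even: turn it; both odd: through the mediant. FAR. Model: `Pool/Agent/Helper39/TH/M_Uni.lean`. -/
def TUni : Prop := ∀ (R : Type) (_ : AddCommGroup R) (r s : ℕ) (G : ℤ → ℤ → R),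
  SymH 3 (r + 1) (s + 1) G → (∀ i, (pfT G i : ZMod (3 ^ r) → ZMod (3 ^ s) → R) = 0) → EqC G 0

/-- HKB. Hecke sums for balanced levels `(r, s)` (from SHHk by `G0(p,q) = G(3^r p, q)`), and `T_l` preserves symbols (SHHkS). The same statement as `THkB` of `Helper4/TH/StD.lean` with `3` in place of `5`. Hypotheses: `SHHk`, `SHHkS` of `Helper93/TLH/StB.lean` (both proved).
Model: `Pool/Agent/Helper8/TH/M_HkB.lean`. -/
def THkB : Prop := ∀ (R : Type) (_ : AddCommGroup R) (r s l : ℕ) (G : ℤ → ℤ → R), l.Prime →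
  l ≠ 3 → l ≠ 2 → SymH 3 r s G → SymH 3 r s (Tl l (3 ^ r) G) ∧
  ∀ δ : Fin (l + 1) → Matrix (Fin 2) (Fin 2) ℤ,
  (∀ P, (δ P).det = l) → (∀ P, (3 : ℤ) ^ r ∣ δ P 0 1) → (∀ P, 2 * (3 : ℤ) ^ s ∣ δ P 1 0) →
  (∀ P P', P ≠ P' → ¬ ∀ i j, (l : ℤ) ∣ (δ P * (δ P').adjugate) i j) →
  EqC (fun p q => ∑ P, G (δ P 0 0 * p + δ P 0 1 * q) (δ P 1 0 * p + δ P 1 1 * q)) (Tl l (3 ^ r) G)

/-- HKF (from HKB, EDG, PLT). Hecke formula on the plane for the path from `v` to `u`. `J` is a complete system of residues modulo `l`. For `g` the standard matrix with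
coordinates `(x,y)` use in HKB the family `δ = g_j (1 3j; 0 l) g⁻¹`, `j ∈ J`, and `g_∞ (l 0; 0 1) g⁻¹`, where `g_j` is the standard matrix with coordinates
`((x-j)/l, l y/(1-9jy))` (this is `(x,y)` times `(l -3j; 0 1)`) and `g_∞` the one with coordinates `(l x, y/l)` (this is `(x,y)(1 0; 0 l)`). All standard matrices have determinant one and even lower left entry, so `2 ∣ δ 1 0`. Models: `Pool/Agent/Helper48/TH/M_HkF.lean` (no balanced upper entry) and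
`Pool/Agent/Helper69/W3/M_HkF.lean` (balanced). -/
def THkF : Prop := ∀ (R : Type) (_ : AddCommGroup R) (r s l : ℕ) (G : ℤ → ℤ → R) (J : Finset ℤ),
  l.Prime → l ≠ 3 → l ≠ 2 → SymH 3 (r + 1) (s + 1) G → J.card = l →
  (∀ j ∈ J, ∀ j' ∈ J, (l : ℤ) ∣ j - j' → j = j') →
  ∀ (u1 u2 v1 v2 : ℤ), (u1 ≠ 0 ∨ u2 ≠ 0) → (v1 ≠ 0 ∨ v2 ≠ 0) → ∀ (x : ZMod (3 ^ r)) (y : ZMod (3 ^ s)),
  edgeT u1 u2 v1 v2 (Tl l (3 ^ (r + 1)) G) x y =
    tr 1 0 0 l (edgeT (l * u1) u2 (l * v1) v2 G) x y +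
    ∑ j ∈ J, tr l (-j) 0 1 (edgeT (u1 + 3 * j * u2) (l * u2) (v1 + 3 * j * v2) (l * v2) G) x y

/-- RLL (from TRM). The relations as operators (`tr` is additive in the function). Model: `hRll` in `Pool/Agent/Helper40/TH/M_Sol.lean`. -/
def TRll : Prop := ∀ (r s : ℕ) (F : Fin 5 → Fn3 (3 ^ r) (3 ^ s)), RelT F → ∀ ρ : Fin 3,
  ∑ f : Fin 5, opL (relT ρ f) (F f) = 0

/-- HK `l T` (from HKF, TRE, TRM): the lists `T` are the rows of `T_l`. Proved by `row_of_chkN` of `Helper93/TLH/GenN.lean`. -/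
def THk (l : ℕ) (T : Fin 5 → Fin 5 → List Tm) : Prop := ∀ (r s : ℕ) (G : ℤ → ℤ → ZMod 3), SymH 3 (r + 1) (s + 1) G → ∀ i : Fin 5,
  (pfT (Tl l (3 ^ (r + 1)) G) i : Fn3 (3 ^ r) (3 ^ s)) = ∑ f : Fin 5, opL (T i f) (pfT G f)

/-! ### The operators -/

/-- The operator `T_13 + 1`. -/
def UoT {R : Type} [AddCommGroup R] (m : ℤ) (G : ℤ → ℤ → R) : ℤ → ℤ → R := Tl 13 m G + G

/-- The operator `T_31 + T_5² - T_7 - T_13 - 1`. -/
def VoT {R : Type} [AddCommGroup R] (m : ℤ) (G : ℤ → ℤ → R) : ℤ → ℤ → R :=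
  Tl 31 m G + Tl 5 m (Tl 5 m G) - Tl 7 m G - Tl 13 m G - G

/-- The first operators: `T_7 + 1` for `c = 0`, `T_5` for `c = 1`, the identity for `c ≥ 2`. -/
def PoT {R : Type} [AddCommGroup R] (m : ℤ) (c : ℕ) (G : ℤ → ℤ → R) : ℤ → ℤ → R :=
  if c = 0 then Tl 7 m G + G else if c = 1 then Tl 5 m G else G

/-- The value of the symbol `U^i V^j P_c G` at `{0, ∞}`. -/
def evT {R : Type} [AddCommGroup R] (m : ℤ) (G : ℤ → ℤ → R) (c i j : ℕ) : R :=
  ((UoT m)^[i] ((VoT m)^[j] (PoT m c G))) 1 0 - ((UoT m)^[i] ((VoT m)^[j] (PoT m c G))) 0 1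

/-- Scalar multiples of a list. -/
def scT (n : ℤ) (L : List Tm) : List Tm := L.map fun t => (n * t.1, t.2)

/-- The list of a multiple of the identity. -/
def idT (n : ℤ) (i f : Fin 5) : List Tm := if i = f then [(n, 1, 0, 0, 1)] else []

/-- The rows of a product. -/
def mmT (M N : Fin 5 → Fin 5 → List Tm) (i f : Fin 5) : List Tm :=
  mulL (M i 0) (N 0 f) ++ mulL (M i 1) (N 1 f) ++ mulL (M i 2) (N 2 f) ++ mulL (M i 3) (N 3 f) ++
    mulL (M i 4) (N 4 f)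

/-- A combination of the three relations. -/
def rmT (M : Fin 5 → Fin 3 → List Tm) (i f : Fin 5) : List Tm :=
  mulL (M i 0) (relT 0 f) ++ mulL (M i 1) (relT 1 f) ++ mulL (M i 2) (relT 2 f)

/-- The rows of `T_13 + 1`. -/
def ULT (i f : Fin 5) : List Tm := T13T i f ++ idT 1 i f

/-- The rows of `T_31 + T_5² - T_7 - T_13 - 1`. -/
def VLT (i f : Fin 5) : List Tm :=
  T31T i f ++ mmT T5T T5T i f ++ scT (-1) (T7T i f) ++ scT (-1) (T13T i f) ++ idT (-1) i f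

/-- The rows of `T_7 + 1`. -/
def ALT (i f : Fin 5) : List Tm := T7T i f ++ idT 1 i f

/-- `T_13 + 1` minus multiples of the relations. -/
def BUT (i f : Fin 5) : List Tm := ULT i f ++ scT (-1) (rmT mUT i f)

/-- `T_31 + T_5² - T_7 - T_13 - 1` minus multiples of the relations. -/
def BVT (i f : Fin 5) : List Tm := VLT i f ++ scT (-1) (rmT mVT i f)

/-- `T_7 + 1` minus multiples of the relations. -/
def BAT (i f : Fin 5) : List Tm := ALT i f ++ scT (-1) (rmT mAT i f)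

/-- `T_5` minus multiples of the relations. -/
def B5T (i f : Fin 5) : List Tm := T5T i f ++ scT (-1) (rmT m5T i f)

/-- The terms with `a d ≡ 1` modulo `3`. -/
def pA (L : List Tm) : List Tm := L.filter fun t => decide ((t.2.1 * t.2.2.2.2) % 3 = 1)

/-- The other terms, with `oN` taken out on the left: `op3 a b c d = oN * op3 (-a) (-b) c d`. -/
def pB (L : List Tm) : List Tm :=
  (L.filter fun t => decide ((t.2.1 * t.2.2.2.2) % 3 ≠ 1)).map fun t =>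
    (t.1, -t.2.1, -t.2.2.1, t.2.2.2.1, t.2.2.2.2)

/-- The leading operator of `T_13 + 1`. -/
def QoT {q q' : ℕ} : Module.End (ZMod 3) (Fn3 q q') := dX * dY

/-- The leading operator of `T_31 + T_5² - T_7 - T_13 - 1`. -/
def LoT {q q' : ℕ} : Module.End (ZMod 3) (Fn3 q q') := dX ^ 3 * dY + dX ^ 2 * dY ^ 2 + dX * dY ^ 3

/-! ### Certificates (finite computations) -/

/-- A good term. -/
def GdT (t : Tm) : Prop := ¬ (3 : ℤ) ∣ t.2.1 ∧ ¬ (3 : ℤ) ∣ t.2.2.2.2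

instance (t : Tm) : Decidable (GdT t) := by unfold GdT; infer_instance

/-- CEG. All terms are good. -/
def TCeG : Prop :=
  (∀ i f : Fin 5, (∀ t ∈ T5T i f, GdT t) ∧ (∀ t ∈ T7T i f, GdT t) ∧ (∀ t ∈ T13T i f, GdT t) ∧ (∀ t ∈ T31T i f, GdT t)) ∧
  (∀ ρ : Fin 3, ∀ f : Fin 5, ∀ t ∈ relT ρ f, GdT t) ∧
  (∀ i : Fin 5, ∀ ρ : Fin 3, (∀ t ∈ mUT i ρ, GdT t) ∧ (∀ t ∈ mVT i ρ, GdT t) ∧ (∀ t ∈ mAT i ρ, GdT t) ∧ (∀ t ∈ m5T i ρ, GdT t))

/-- CEU. The coefficients of `T_13 + 1` (row `i`, column `f`) of weight at most `2`. -/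
def TCeU : Prop := ∀ i f : Fin 5, ∀ t ∈ M5, 2 * t.1 + t.2.1 + t.2.2 ≤ 2 →
  (3 : ℤ) ∣ sS (pA (BUT i f)) t.1 t.2.1 t.2.2 - (if f = i ∧ t = (0, 1, 1) then 1 else 0) ∧
  (3 : ℤ) ∣ sS (pB (BUT i f)) t.1 t.2.1 t.2.2

/-- CEV. The coefficients of `T_31 + T_5² - T_7 - T_13 - 1` (row `i`, column `f`) of weight at most `4`. -/
def TCeV : Prop := ∀ i f : Fin 5, ∀ t ∈ M5,
  (3 : ℤ) ∣ sS (pA (BVT i f)) t.1 t.2.1 t.2.2 -
    (if f = i ∧ (t = (0, 3, 1) ∨ t = (0, 2, 2) ∨ t = (0, 1, 3)) then 1 else 0) ∧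
  (3 : ℤ) ∣ sS (pB (BVT i f)) t.1 t.2.1 t.2.2

/-- CEA. The coefficients of `T_7 + 1`: first row, weight at most `2`; other rows, weight at most `1`. -/
def TCeA : Prop :=
  (∀ f : Fin 5, ∀ t ∈ M5, 2 * t.1 + t.2.1 + t.2.2 ≤ 2 →
    (3 : ℤ) ∣ sS (pA (BAT 0 f)) t.1 t.2.1 t.2.2 -
      (if f = 0 then (if t = (0, 0, 2) ∨ t = (0, 1, 1) then 1 else 0)
        else if f = 1 ∨ f = 2 then (if t = (0, 0, 2) then 1 else if t = (0, 2, 0) then 2 else 0) else 0) ∧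
    (3 : ℤ) ∣ sS (pB (BAT 0 f)) t.1 t.2.1 t.2.2 -
      (if f = 0 then (if t = (0, 0, 2) then 1 else if t = (0, 1, 1) then 2 else 0)
        else if f = 1 ∨ f = 2 then (if t = (0, 0, 2) then 1 else if t = (0, 2, 0) then 2 else 0) else 0)) ∧
  (∀ i f : Fin 5, ∀ t ∈ M5, 2 * t.1 + t.2.1 + t.2.2 ≤ 1 →
    (3 : ℤ) ∣ sS (pA (BAT i f)) t.1 t.2.1 t.2.2 ∧ (3 : ℤ) ∣ sS (pB (BAT i f)) t.1 t.2.1 t.2.2)

/-- CE5. The coefficients of `T_5`: first row, weight at most `1`; other rows, weight `0`. -/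
def TCe5 : Prop :=
  (∀ f : Fin 5, ∀ t ∈ M5, 2 * t.1 + t.2.1 + t.2.2 ≤ 1 →
    (3 : ℤ) ∣ sS (pA (B5T 0 f)) t.1 t.2.1 t.2.2 -
      (if f = 1 then (if t = (0, 1, 0) then 2 else if t = (0, 0, 1) then 1 else 0)
        else if f = 2 then (if t = (0, 1, 0) then 1 else if t = (0, 0, 1) then 2 else 0) else 0) ∧
    (3 : ℤ) ∣ sS (pB (B5T 0 f)) t.1 t.2.1 t.2.2 -
      (if f = 1 then (if t = (0, 1, 0) then 2 else if t = (0, 0, 1) then 1 else 0)
        else if f = 2 then (if t = (0, 1, 0) then 1 else if t = (0, 0, 1) then 2 else 0) else 0)) ∧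
  (∀ i f : Fin 5, (3 : ℤ) ∣ sS (pA (B5T i f)) 0 0 0 ∧ (3 : ℤ) ∣ sS (pB (B5T i f)) 0 0 0)

/-! ### Leading forms -/

/-- SPL (from TRM). `opL L = opL (pA L) + oN * opL (pB L)` for good lists (`op3 a b c d = oN * op3 (-a) (-b) c d` by TRM), and the terms of `pA L`, `pB L` satisfy `a d ≡ 1` modulo `3` (hypothesis of EXP). -/
def TSpl : Prop := ∀ (r s : ℕ) (L : List Tm), (∀ t ∈ L, GdT t) →
  (opL L : Module.End (ZMod 3) (Fn3 (3 ^ r) (3 ^ s))) = opL (pA L) + oN * opL (pB L) ∧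
  (∀ t ∈ pA L, (t.2.1 * t.2.2.2.2) % 3 = 1) ∧ (∀ t ∈ pB L, (t.2.1 * t.2.2.2.2) % 3 = 1)

/-- LDU (from TRM, LOW0, EXP, LW1, SPL, RLL, CEG, CEU). Leading forms of `T_13 + 1`, for five functions of degree at most `d` satisfying the relations. `opL (mulL L L') = opL L * opL L'` (TRM, all terms good), `opL (scT n L) = n • opL L`.
So modulo the relations (RLL) the rows are the lists `BUT`; SPL, and EXP with the certificates gives the leading forms: `(oD - 1)^i dX^j dY^k` lowers by `2i + j + k`, `oN` preserves degrees (S3Lw1). Models: `Pool/Agent/Helper26/TH/M_LdU.lean` and the module for `S3Ld` of W3 (`Pool/Agent/*/W3/M_Ld.lean`). -/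
def TLdU : Prop := ∀ (r s : ℕ) (d : ℤ) (F : Fin 5 → Fn3 (3 ^ r) (3 ^ s)), RelT F → (∀ f, F f ∈ Wd3 d) →
  ∀ i : Fin 5, (∑ f : Fin 5, opL (ULT i f) (F f)) - QoT (F i) ∈ Wd3 (d - 3)

/-- LDV (from TRM, LOW0, EXP, LW1, SPL, RLL, CEG, CEV). Leading forms of `T_31 + T_5² - T_7 - T_13 - 1`, as LDU, up to terms which lower by `5`. -/
def TLdV : Prop := ∀ (r s : ℕ) (d : ℤ) (F : Fin 5 → Fn3 (3 ^ r) (3 ^ s)), RelT F → (∀ f, F f ∈ Wd3 d) →
  ∀ i : Fin 5, (∑ f : Fin 5, opL (VLT i f) (F f)) - LoT (F i) ∈ Wd3 (d - 5)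

/-- LDA (from TRM, LOW0, EXP, LW1, SPL, RLL, CEG, CEA, LWT). `T_7 + 1` lowers degrees by `2`, and its first row in even degree. By CEA the first row is `(1 + oN)(dY² F0 + (dY² - dX²)(F1 + F2)) + (1 - oN) dX dY F0` modulo `Wd3 (d-3)`; for even `d` the functions `dY² F0`, ... have even degree `d - 2`, where `oN` is the
identity modulo lower degree (LWT), and `2 = -1`. -/
def TLdA : Prop := ∀ (r s : ℕ) (d : ℤ) (F : Fin 5 → Fn3 (3 ^ r) (3 ^ s)), RelT F → (∀ f, F f ∈ Wd3 d) →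
  (∀ i : Fin 5, (∑ f : Fin 5, opL (ALT i f) (F f)) ∈ Wd3 (d - 2)) ∧
  (Even d → (∑ f : Fin 5, opL (ALT 0 f) (F f)) + (dY ^ 2 : Module.End (ZMod 3) (Fn3 (3 ^ r) (3 ^ s))) (F 0) -
    (dX ^ 2 - dY ^ 2 : Module.End (ZMod 3) (Fn3 (3 ^ r) (3 ^ s))) (F 1 + F 2) ∈ Wd3 (d - 3))

/-- LD5 (from TRM, LOW0, EXP, LW1, SPL, RLL, CEG, CE5, LWT). `T_5` lowers degrees by `1`, and its first row in odd degree. By CE5 the first row is `-(1 + oN)(dX - dY)(F1 - F2)` modulo `Wd3 (d-2)`; for odd `d` the degree `d - 1` is even, `oN` is the identity modulo lower degree (LWT), and `-2 = 1`. -/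
def TLd5 : Prop := ∀ (r s : ℕ) (d : ℤ) (F : Fin 5 → Fn3 (3 ^ r) (3 ^ s)), RelT F → (∀ f, F f ∈ Wd3 d) →
  (∀ i : Fin 5, (∑ f : Fin 5, opL (T5T i f) (F f)) ∈ Wd3 (d - 1)) ∧
  (Odd d → (∑ f : Fin 5, opL (T5T 0 f) (F f)) -
    (dX - dY : Module.End (ZMod 3) (Fn3 (3 ^ r) (3 ^ s))) (F 1 - F 2) ∈ Wd3 (d - 2))

/-- LWT (from TRM, LOW0, NF, LW1, BB). Elementary facts. `oN² = 1` (TRM). `oN dX + dX oN` lowers by `2` (`(oN dX F + dX oN F)(x,y) = F(-x+1,-y) - 2F(-x,-y) + F(-x-1,-y)`), the same for `dY`. On functions of degree at most `d` the operator `oN` is `(-1)^d` modulo lower degree (`oN (dX^i dY^j F) = (-1)^(i+j) dX^i dY^j (oN F)` up to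
lower degree, `i + j = d`, and functions of degree `0` are constant; or on the basis `bb3`). The matrices: normal forms by NF (`op3 a b c d - oD^m (1+dX)^β (1+dY)^γ` lowers by `7` for `a d ≡ 1`; `oD - 1` lowers by `2`), with `oN` taken out on the left by TRM (`op3 a b c d = oN * op3 (-a) (-b) c d`) for the last four: `β ≡ b/a`, `γ ≡ c/d`
modulo `3`: `(4, -1, 2, -4)`: `(-1, 1)`; `(4, 1, -2, -4)`: `(1, -1)`; `(8, -1, 2, -2)`: `(1, -1)`; `(10, 1, 2, 2)`: `(1, 1)`. -/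
def TLwt : Prop := ∀ (r s : ℕ),
  (oN * oN : Module.End (ZMod 3) (Fn3 (3 ^ r) (3 ^ s))) = 1 ∧
  Lw (oN * dX + dX * oN : Module.End (ZMod 3) (Fn3 (3 ^ r) (3 ^ s))) 2 ∧
  Lw (oN * dY + dY * oN : Module.End (ZMod 3) (Fn3 (3 ^ r) (3 ^ s))) 2 ∧
  (∀ (d : ℤ) (F : Fn3 (3 ^ r) (3 ^ s)), F ∈ Wd3 d → Even d → oN F - F ∈ Wd3 (d - 1)) ∧
  (∀ (d : ℤ) (F : Fn3 (3 ^ r) (3 ^ s)), F ∈ Wd3 d → Odd d → oN F + F ∈ Wd3 (d - 1)) ∧
  Lw (op3 1 1 0 1 - 1 - dX : Module.End (ZMod 3) (Fn3 (3 ^ r) (3 ^ s))) 2 ∧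
  Lw (op3 4 (-1) 2 (-4) - oN * (1 - dX + dY) : Module.End (ZMod 3) (Fn3 (3 ^ r) (3 ^ s))) 2 ∧
  Lw (op3 4 1 (-2) (-4) - oN * (1 + dX - dY) : Module.End (ZMod 3) (Fn3 (3 ^ r) (3 ^ s))) 2 ∧
  Lw (op3 8 (-1) 2 (-2) - oN * (1 + dX - dY) : Module.End (ZMod 3) (Fn3 (3 ^ r) (3 ^ s))) 2 ∧
  Lw (op3 10 1 2 2 - oN * (1 + dX + dY) : Module.End (ZMod 3) (Fn3 (3 ^ r) (3 ^ s))) 2

/-! ### Solutions of the relations -/

/-- `b - b∘σ`. -/
def dsT {R : Type} [AddCommGroup R] {q q' : ℕ} (b : ZMod q → ZMod q' → R) : ZMod q → ZMod q' → R :=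
  fun x y => b x y - tr 4 (-1) 2 (-4) b x y

/-- `b - b∘σ'`. -/
def dsT' {R : Type} [AddCommGroup R] {q q' : ℕ} (b : ZMod q → ZMod q' → R) : ZMod q → ZMod q' → R :=
  fun x y => b x y - tr 4 1 (-2) (-4) b x y

/-- The left side of the third relation for `F0 = f0`, `F1 = f1`, `F2 = f2`, `F3 = f0 - f1 - (b - b∘σ)`, `F4 = f0 - f2 - (b' - b'∘σ')`. -/
def qT {R : Type} [AddCommGroup R] {q q' : ℕ} (f0 f1 f2 b b' : ZMod q → ZMod q' → R) : ZMod q → ZMod q' → R :=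
  fun x y => -f1 x y + tr 1 1 0 1 f2 x y -
    tr 8 (-1) 2 (-2) (fun x y => f0 x y - f1 x y - dsT b x y) x y +
    tr 10 1 2 2 (fun x y => f0 x y - f2 x y - dsT' b' x y) x y

/-- The solution with the parameters `f0, f1, f2, b, b'`. -/
def solT {R : Type} [AddCommGroup R] {q q' : ℕ} (f0 f1 f2 b b' : ZMod q → ZMod q' → R) :
    Fin 5 → ZMod q → ZMod q' → R
  | 0 => f0
  | 1 => f1
  | 2 => f2
  | 3 => fun x y => f0 x y - f1 x y - dsT b x y
  | 4 => fun x y => f0 x y - f2 x y - dsT' b' x y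

/-- SOL (from TRM). If `qT f0 f1 f2 b b' = 0` then `solT f0 f1 f2 b b'` satisfies the relations: `kT = b - b∘σ`, and `σ² = -2` acts trivially. Model: `hSol` in `Pool/Agent/Helper40/TH/M_Sol.lean`. -/
def TSol : Prop := ∀ (R : Type) (_ : AddCommGroup R) (r s : ℕ) (f0 f1 f2 b b' : ZMod (3 ^ r) → ZMod (3 ^ s) → R),
  (∀ x y, qT f0 f1 f2 b b' x y = 0) → RelT (solT f0 f1 f2 b b')

/-- SUR (from TRM, LOW0, S3Lw1 (first part: `op3 a b c d` with `a d ≡ 1` preserve degrees), LWT, BB). Solving the inhomogeneous relation below the top degree, with `f2 = b' = 0`. Proof by induction on `e` (downwards until `Wd3 (-1) = 0`), it is enough to solve up to an error in `Wd3 (e - 1)` (with the functions of the degree allowed;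
the remaining error is solved with smaller degrees: `e - 1 + 1 = e` if `e` is odd, `e - 1` if `e` is even; `qT` is additive). Write `X = dX`, `Y = dY`, `γ, σ, γ'` for the operators. `e` odd: `f1 = -(E - oN E)`, `f0 = b = 0`: `f1 ≡ E` modulo lower degree (`oN E ≡ -E`, `-2 = 1`), `qT = -f1 + γ f1 ≡ -2 f1 = f1`.
`e` even: every `E ∈ Wd3 e` with `e < 3^r + 3^s - 2` is `X P + Y Q` with `P, Q ∈ Wd3 (e+1)` (as in `S3Sur`, by BB). Put `P' = -(P - oN P)`, `Q' = -(Q - oN Q)` (`P' ≡ P`, `Q' ≡ Q` modulo `Wd3 e`, and EXACTLY `oN P' = -P'`, `oN Q' = -Q'`, by `oN² = 1`), `f1 = P'`, `b = -P'`, `f0 = -(P' + Q')`. For `f` of odd degree `D = e + 1` with `oN f = -f`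
one has modulo `Wd3 (D-2)` (LWT; `oN` is `+1` on the even degree `D - 1`): `σ f = oN (f - Xf + Yf) ≡ -f - Xf + Yf`, `γ f = oN (f + Xf - Yf) ≡ -f + Xf - Yf`, `γ' f ≡ -f + Xf + Yf`; and `γ h ≡ h` for `h` of degree `D - 1`. So `-f1 + γ f1 ≡ f1 + Xf1 - Yf1` (`-2 = 1`), `(γ' - γ) f0 ≡ 2Y f0`,
`γ (b - σ b) ≡ γ (2b + Xb - Yb) ≡ 2(-b + Xb - Yb) + Xb - Yb = b` (`3 = 0`), and `qT = -f1 + γ f1 - γ f0 + γ (b - σ b) + γ' f0 ≡ (f1 + b) + (X - Y) f1 + 2 Y f0 = (X - Y) P' - 2 Y (P' + Q') = X P' + Y Q'` modulo `Wd3 (e-1)`: equal to `E` there. Models: `Pool/Agent/Helper9/TH/M_Sur.lean`, the module for `S3Sur` of W3. -/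
def TSur : Prop := ∀ (r s : ℕ) (e : ℤ) (E : Fn3 (3 ^ r) (3 ^ s)), e < 3 ^ r + 3 ^ s - 2 → E ∈ Wd3 e →
  ∃ f0 f1 b : Fn3 (3 ^ r) (3 ^ s), f0 ∈ Wd3 (e + 1) ∧ f1 ∈ Wd3 (e + 1) ∧ b ∈ Wd3 (e + 1) ∧
    (Odd e → f0 ∈ Wd3 e ∧ f1 ∈ Wd3 e ∧ b ∈ Wd3 e) ∧ qT f0 f1 0 b 0 = E

/-- LED (from TRM, LOW0, S3Lw1, LWT, BB, SOL, SUR). Solutions of the relations with given leading forms `u0, u1, u2`, even degree `d = al + be`. Start with `f_i = u_i bb`, `b = b' = 0`, `bb = bb3 al be`: the defect `E = qT` has degree at most `d - 1` (on even degree all operators `A, γ, γ'` are `1` modulo lower degree and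
`-f1 + f2 - (f0 - f1) + (f0 - f2) = 0`), `d - 1` is odd and `< 3^r + 3^s - 2`: subtract the solution of SUR, whose functions have degree at most `d - 1`. (All `op3` preserve degrees: S3Lw1 and TRM for those with `a d ≡ -1`.) -/
def TLed : Prop := ∀ (r s al be : ℕ) (u0 u1 u2 : ZMod 3), al < 3 ^ r → be < 3 ^ s → Even (al + be) →
  ∃ F : Fin 5 → Fn3 (3 ^ r) (3 ^ s), RelT F ∧ (∀ f, F f ∈ Wd3 ((al : ℤ) + be)) ∧
    F 0 - u0 • bb3 al be ∈ Wd3 ((al : ℤ) + be - 1) ∧ F 1 - u1 • bb3 al be ∈ Wd3 ((al : ℤ) + be - 1) ∧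
    F 2 - u2 • bb3 al be ∈ Wd3 ((al : ℤ) + be - 1)

/-- LEO (from TRM, LOW0, S3Lw1, LWT, BB, SOL, SUR). Odd degree `d = al + be`. Let `w = -(bb - oN bb)`, so `w ≡ bb` modulo `Wd3 (d-1)` and `oN w = -w`. Start with `f0 = 0`, `f1 = -w`, `f2 = w`, `b = w`, `b' = -w`. As in SUR (and `γ' (b' - σ' b') ≡ γ'(2b' - Xb' + Yb') ≡ 2(-b' + Xb' + Yb') - Xb' + Yb' = b' + Xb'`,
`A f2 = f2 + X f2`) `qT ≡ (f1 - f2 + b - b') + (2Y f0 + (X - Y) f1 - Y f2 - X b') = 0` modulo `Wd3 (d-2)`; `d - 2` is odd: subtract the solution of SUR, whose functions have degree at most `d - 2`. `F1 - F2 ≡ -2w = w ≡ bb`. -/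
def TLeo : Prop := ∀ (r s al be : ℕ), al < 3 ^ r → be < 3 ^ s → Odd (al + be) →
  ∃ F : Fin 5 → Fn3 (3 ^ r) (3 ^ s), RelT F ∧ (∀ f, F f ∈ Wd3 ((al : ℤ) + be)) ∧
    F 1 - F 2 - bb3 al be ∈ Wd3 ((al : ℤ) + be - 1)

/-! ### Iteration and counting -/

/-- ITR (from REL, HKB, HK5, HK7, HK13, HK31, TRM, LOW0, LDU, LDV, LDA, LD5). Iteration. For a symbol `G` modulo 3 of level `(r+1, s+1)` with all five functions in `Wd3 d`, and `m = 3^(r+1)`. Proof: `T_l` preserves symbols (HKB), so `PoT m c G`, `UoT m G`, `VoT m G` are symbols, with the functions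
`∑_f opL (ALT i f) F_f(G)`, etc. (HK; `opL (mmT ..)`; `pfT` is additive). `evT m G c i j` is the value at `(0,0)` of `F0` of `(UoT m)^i (VoT m)^j (PoT m c G)` (the standard matrix of `(0,0)` is `1`: `yT 0 0 = 0`). First `P_c` (LDA: lowers by `2`, LD5: lowers by `1`), then LDV `j` times, LDU `i` times:
the functions of `U^i V^j P_c G` have degrees `d' = d - (2, 1, 0)_c - 2i - 4j`, `F0 ≡ QoT^i LoT^j F0(P_c G)` modulo `Wd3 (d' - 1)`; for `d' = 0` the degree `d` is even for `c = 0`, odd for `c = 1`. Model: `Pool/Agent/Helper94/TH/M_Itr.lean`. -/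
def TItr : Prop := ∀ (r s : ℕ) (G : ℤ → ℤ → ZMod 3) (d : ℕ), SymH 3 (r + 1) (s + 1) G →
  (∀ f, (pfT G f : Fn3 (3 ^ r) (3 ^ s)) ∈ Wd3 (d : ℤ)) → ∀ i j : ℕ,
  (d < 2 * i + 4 * j → evT (3 ^ (r + 1)) G 2 i j = 0) ∧
  (2 * i + 4 * j = d → evT (3 ^ (r + 1)) G 2 i j =
    ((QoT ^ i * LoT ^ j : Module.End (ZMod 3) (Fn3 (3 ^ r) (3 ^ s))) (pfT G 0)) 0 0) ∧
  (d < 2 * i + 4 * j + 1 → evT (3 ^ (r + 1)) G 1 i j = 0) ∧
  (2 * i + 4 * j + 1 = d → evT (3 ^ (r + 1)) G 1 i j =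
    ((QoT ^ i * LoT ^ j * (dX - dY) : Module.End (ZMod 3) (Fn3 (3 ^ r) (3 ^ s))) (pfT G 1 - pfT G 2)) 0 0) ∧
  (d < 2 * i + 4 * j + 2 → evT (3 ^ (r + 1)) G 0 i j = 0) ∧
  (2 * i + 4 * j + 2 = d → evT (3 ^ (r + 1)) G 0 i j =
    ((QoT ^ i * LoT ^ j * (dX ^ 2 - dY ^ 2) : Module.End (ZMod 3) (Fn3 (3 ^ r) (3 ^ s))) (pfT G 1 + pfT G 2)) 0 0 -
    ((QoT ^ i * LoT ^ j * dY ^ 2 : Module.End (ZMod 3) (Fn3 (3 ^ r) (3 ^ s))) (pfT G 0)) 0 0)

/-- The degrees lost by the first operators: `2, 1, 0` for `c = 0, 1, 2`. -/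
def aT (c : ℕ) : ℕ := 2 - c

/-- TRI (from LOW0, BB, LED, LEO, EX, ITR). Triangular system of symbols modulo 3. For `(c, i, j)`, `c ≤ 2`, put `al = aT c + i + 3j < 3^r`, `be = i + j < 3^s`, `D = al + be = aT c + 2i + 4j` (even for `c = 0, 2`, odd for `c = 1`); take LED with `(u0, u1, u2) = (0, 1, 0)` for `c = 0`, `(1, 0, 0)` for `c = 2`, LEO for
`c = 1`, and the symbol `G` of EX. By ITR `evT G c' i' j' = 0` if `D' > D`. Let `D' = D` (so `c' = 1` if and only if `c = 1`), `X`, `Y` be `dX`, `dY`, `m = i' + j'`; terms of degree lower than `D` are killed; `QoT^i' LoT^j' = (XY)^m (X - Y)^(2j')` (`X² + XY + Y² = (X - Y)²` modulo 3). `c = 0`: `F0 ≡ 0`, so `c' = 2` gives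
`0`; `c' = 0`: the coefficient of `X^al Y^be` in `(XY)^m (X - Y)^(2j') (X² - Y²)`: zero if `m > be = i + j`, `1` for `(i', j') = (i, j)`. `c = 2`: `F1 ≡ F2 ≡ 0`; `c' = 2`: the coefficient of `X^al Y^be` in `(XY)^m (X - Y)^(2j')`: zero if `m > be`, `1` for `(i, j)`; `c' = 0 < c` is allowed. `c = 1`: `c' = 1`: the coefficient
in `(XY)^m (X - Y)^(2j'+1)`: zero if `m > be`, `1` for `(i, j)`. If `D' = D`, `c' = c` then `m ≤ be` is the last alternative. Models: `Pool/Agent/Helper22/W3/M_Tri.lean` (the same forms), `Pool/Agent/Helper6/TH/M_Tri.lean`. -/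
def TTri : Prop := ∀ (r s c i j : ℕ), c ≤ 2 → aT c + i + 3 * j < 3 ^ r → i + j < 3 ^ s →
  ∃ G : ℤ → ℤ → ZMod 3, SymH 3 (r + 1) (s + 1) G ∧ evT (3 ^ (r + 1)) G c i j ≠ 0 ∧
    ∀ c' i' j' : ℕ, c' ≤ 2 → evT (3 ^ (r + 1)) G c' i' j' ≠ 0 →
      (aT c' + 2 * i' + 4 * j' < aT c + 2 * i + 4 * j ∨
        (aT c' + 2 * i' + 4 * j' = aT c + 2 * i + 4 * j ∧
          (c' < c ∨ (c' = c ∧ i' + j' ≤ i + j))))

/-- LIFP (from TRM, SOL). Lifting solutions of the relations to integers. Modulo 3 put `b = -kT f`, `b' = -kT' f` (`kT + kT∘σ = 0`, so `b - b∘σ = -2 kT = kT`); then `f = solT f0 f1 f2 b b'` and `qT f0 f1 f2 b b' = 0`. Take any integral lifts of `f0, f1, f2, b, b'`; the defect `qT` is divisible by 3 and has total sum zero over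
the plane (`p ↦ pA` etc. are bijections, TRM); `qT/3` has total sum zero, and every integral function with sum zero is `qT` of some `(f0, f1, f2, b, b')`, because modulo such functions `δ_p ≡ δ_(pγ)` (from `f1`: `-f1 + f1∘γ`), `δ_(pγ) ≡ δ_(pγ')` (from `f0`), `δ_(pA) ≡ δ_(pγ')` (from `f2`), so `δ_p ≡ δ_(pg)` for
`g = A, γ, γ'`, so also for `B' = (1 0; 6 1) = γ⁻¹ γ'` (up to a scalar: `adj(γ) γ' = -2 (1 0; 6 1)`), and the plane is connected under `A` and `B'` (`(x,y) A^z = (x + z, y/(1 + 9zy))`, `(x, y) B'^z = (x/(1 + 18zx), y + 2z)`, `2` is invertible: move to `(0, y')` and then to `(0,0)`). Subtract `3` times this solution; SOL. Model: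
`Pool/Agent/Helper21/TH/M_Lifp.lean`. -/
def TLifp : Prop := ∀ (r s : ℕ) (f : Fin 5 → Fn3 (3 ^ r) (3 ^ s)), RelT f →
  ∃ F : Fin 5 → ZMod (3 ^ r) → ZMod (3 ^ s) → ℤ, RelT F ∧
    ∀ i x y, ((F i x y : ℤ) : ZMod 3) = f i x y

/-- LIF (from REL, LIFP, EX, UNI). Lifting symbols: every symbol `g` modulo 3 lifts to an integral symbol `G` with the same
`evT` modulo 3. Proof: REL, LIFP, EX over `ℤ`; the reduction of `G` is a symbol with the same five functions as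
`g`, so by UNI it equals `g` up to a constant; `evT` commutes with reduction. Model: `Pool/Agent/Helper27/TH/M_Lif.lean`. -/
def TLif : Prop := ∀ (r s : ℕ) (g : ℤ → ℤ → ZMod 3), SymH 3 (r + 1) (s + 1) g →
  ∃ G : ℤ → ℤ → ℤ, SymH 3 (r + 1) (s + 1) G ∧
    ∀ c i j : ℕ, ((evT (3 ^ (r + 1)) G c i j : ℤ) : ZMod 3) = evT (3 ^ (r + 1)) g c i j

/-- UNB. Back to `Γ₀(2·3^n)` and to complex values: if `G` is an integral symbol of level `(r, s)` then
`G0(p,q) = G(3^r p, q)` (as complex numbers) is a symbol of level `(0, r+s)` with `evT 1 G0 = evT (3^r) G` (`Tl l 1 G0 (p,q) = Tl l (3^r) G (3^r p, q)`). Model: `Pool/Agent/Helper97/TH/M_Unb.lean`. -/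
def TUnb : Prop := ∀ (r s : ℕ) (G : ℤ → ℤ → ℤ), SymH 3 r s G →
  SymH 3 0 (r + s) (fun p q => ((G (3 ^ r * p) q : ℤ) : ℂ)) ∧
    ∀ c i j : ℕ, evT 1 (fun p q => ((G (3 ^ r * p) q : ℤ) : ℂ)) c i j = ((evT (3 ^ r) G c i j : ℤ) : ℂ)

/-- CNT. Counting the index sets. `DDE 1 ddH3 (2k) = t(t + 1)/2`, `DDE 1 ddH3 (2k+1) = 3t(t + 1)/2` with `t = 3^(k-1)` (`k ≥ 1`; induction: `1, 3, 6, 18, 45`). First set: the second condition follows from the first; `∑_(c, j) max(0, t - aT c - 3j) = t + (t - 1) + ... + 1` (`aT c + 3j` runs through all natural numbers). Second set: the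
first condition follows from the second (`aT c + i + 3j ≤ 2 + 3(t - 1)`); `3` times `∑_(j<t) (t - j) = t(t + 1)/2`. Model: `Pool/Agent/Helper12/TH/M_Cnt.lean`. -/
def TCnt : Prop :=
  (∀ k : ℕ, 1 ≤ k → ((Finset.range 3 ×ˢ Finset.range (3 ^ k) ×ˢ Finset.range (3 ^ k)).filter
    fun t : ℕ × ℕ × ℕ => aT t.1 + t.2.1 + 3 * t.2.2 < 3 ^ (k - 1) ∧ t.2.1 + t.2.2 < 3 ^ (k - 1)).card = DDE 1 ddH3 (2 * k)) ∧
  (∀ k : ℕ, 1 ≤ k → ((Finset.range 3 ×ˢ Finset.range (3 ^ k) ×ˢ Finset.range (3 ^ k)).filter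
    fun t : ℕ × ℕ × ℕ => aT t.1 + t.2.1 + 3 * t.2.2 < 3 ^ k ∧ t.2.1 + t.2.2 < 3 ^ (k - 1)).card = DDE 1 ddH3 (2 * k + 1))

/-- LB from TRI, LIF, UNB, CNT. For `n = 2k` (`k ≥ 1`) use `(r,s) = (k-1,k-1)`, for `n = 2k+1` use
`(r,s) = (k,k-1)`: level `(r+1, s+1)`. The matrix `M (κ, (c,i,j)) = evT G_κ c i j` (`κ`, `(c,i,j)` in the index set of CNT) is integral, and modulo 3 its rows are
linearly independent: in a relation `∑ x_κ M(κ,·) = 0` take `κ0` maximal with `x_{κ0} ≠ 0` for the lexicographic order of (`D = aT c + 2i + 4j`, `c`, `i + j`), which determines `(c, i, j)`; the column `κ0` gives `x_{κ0} = 0`. So its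
determinant is prime to `3`, nonzero in `ℂ`. If a combination `H` of the `G_κ` (complex, level `(0, n)`) is killed by all words (`evLH 3 H = 0`) then `evT 1 H c i j = 0`: the set of all `K` with `evw 1 ls K = 0` for all
words is stable under `Tl l 1`, `l = 5, 7, 13, 31`, sums and integer multiples. So the vectors `evLH 3 (G_κ)` are independent. Model: `Pool/Agent/Helper74/TH/M_LBof.lean`. -/
def TLBof : Prop := TTri → TLif → TUnb → TCnt → LBH 3 1 ddH3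

end Pool.Agent.Helper93.TH3
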