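import Pool.Agent.Helper93.TLH.Defs
import Pool.Agent.Helper78.W3.StC

/-!
# Project TH (levels `2·3^n`, `W_2 = +1`): values of symbols on paths

The plane is the balanced one of project W3 (`μ = 1`); the standard matrix of `(x, y)` is `(1, 3X; 3Y, 1 + 9XY)` with `X = x.val` and `Y = yT x y` even, so that it has type `HTy`.
-/

set_option autoImplicit false

namespace Pool.Agent.Helper93.TH3

open Pool.Agent.Helper78.W3 (rY3 Pl3 S3PlA)
open Pool.Agent.Helper93.TLH (HTy SymH)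

/-- The dimension of the new symbols of level `2·3^n` (`W = -1`, `* = +1`), `n ≥ 3`. -/
def ddH3 (n : ℕ) : ℕ :=
  if n % 2 = 1 then 9 ^ (n / 2 - 1) + 3 ^ (n / 2 - 1) else 3 * 9 ^ (n / 2 - 2)

/-- The matrix `(a, 3b; 3c, d)` has type `HTy` (determinant one with `c` even, or determinant two with `a`, `c`, `d` even) and plane coordinates `(x, y)`, that is
`b = x a` modulo `q` and `c = y d` modulo `q'`. -/
def PlT {q q' : ℕ} (a b c d : ℤ) (x : ZMod q) (y : ZMod q') : Prop :=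
  HTy a (3 * b) (3 * c) d ∧ (b : ZMod q) = x * a ∧ (c : ZMod q') = y * d

/-- The entry `Y` of the standard matrix `(1, 3X; 3Y, 1 + 9XY)`, `X = x.val`, with coordinates `(x, y)`, even (`q'` odd). -/
noncomputable def yT {q q' : ℕ} (x : ZMod q) (y : ZMod q') : ℤ :=
  if (2 : ℤ) ∣ rY3 1 x y then rY3 1 x y else rY3 1 x y + (q' : ℤ)

/-- The value of the symbol of `G` on the path from `g v` to `g u` (`u = (u1,u2)`, `v = (v1,v2)`),
where `g` is the standard matrix with plane coordinates `(x, y)`. -/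
noncomputable def edgeT {R : Type} [AddCommGroup R] {q q' : ℕ} (u1 u2 v1 v2 : ℤ)
    (G : ℤ → ℤ → R) (x : ZMod q) (y : ZMod q') : R :=
  G (u1 + 3 * (x.val : ℤ) * u2) (3 * yT x y * u1 + (1 + 9 * (x.val : ℤ) * yT x y) * u2)
  - G (v1 + 3 * (x.val : ℤ) * v2) (3 * yT x y * v1 + (1 + 9 * (x.val : ℤ) * yT x y) * v2)

/-- PLT. The standard matrix has type one of `HTy` and the right coordinates. -/
def TPlT : Prop := ∀ (r s : ℕ) (x : ZMod (3 ^ r)) (y : ZMod (3 ^ s)),
  PlT 1 (x.val : ℤ) (yT x y) (1 + 9 * (x.val : ℤ) * yT x y) x y ∧ (2 : ℤ) ∣ yT x y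

theorem hPlT (hA : S3PlA) : TPlT := by
  intro r s x y
  obtain ⟨h1, h2, h3⟩ := hA 1 r s x y
  have ev : (2 : ℤ) ∣ yT x y := by
    unfold yT
    split_ifs with h
    · exact h
    · have ho : ¬ (2 : ℤ) ∣ ((3 ^ s : ℕ) : ℤ) := by
        intro h'
        have h'' : (2 : ℕ) ∣ 3 ^ s := by exact_mod_cast h'
        have := Nat.Prime.dvd_of_dvd_pow Nat.prime_two h''
        omega
      omega
  have cs : ((yT x y : ℤ) : ZMod (3 ^ s)) = ((rY3 1 x y : ℤ) : ZMod (3 ^ s)) := by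
    unfold yT
    split_ifs with h
    · rfl
    · push_cast
      have : ((3 : ZMod (3 ^ s)) ^ s) = 0 := by
        have h5 := ZMod.natCast_self (3 ^ s)
        push_cast at h5
        exact h5
      rw [this, add_zero]
  refine ⟨⟨Or.inl ⟨by ring, Dvd.dvd.mul_left ev _⟩, h2, ?_⟩, ev⟩
  push_cast
  rw [cs]
  push_cast at h3
  linear_combination h3

/-- EDG (from PLT). For a symbol `G` and every matrix `g = (a, 3b; 3c, d)` of type `HTy` with plane coordinates `(x, y)` the value of `G` on the path from `g v` to `g u` is `edgeT`.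
Proof: `g0` the standard matrix (determinant one, `c0` even), `g` with the same coordinates: `γ = g adj(g0) = (α β; γ' δ)`, `α = a d0 - 9 b c0`, `β = 3 (b a0 - a b0)` (`b ≡ x a`, `b0 ≡ x a0`, `a0 = 1`: divisible by `3^(r+1)`), `γ' = 3 (c d0 - d c0)` (`c ≡ y d`, `c0 ≡ y d0`: divisible by `3^(s+1)`), `δ = d a0 - 9 c b0`, is of the same
type as `g` (`3 c0` is even), and `g = γ g0`. Model: the module Edg of TH for `p = 5` (statement `TEdg` of `Helper4/TH/Edge.lean`). -/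
def TEdg : Prop := ∀ (R : Type) (_ : AddCommGroup R) (r s : ℕ) (G : ℤ → ℤ → R),
  SymH 3 (r + 1) (s + 1) G → ∀ (u1 u2 v1 v2 : ℤ), (u1 ≠ 0 ∨ u2 ≠ 0) → (v1 ≠ 0 ∨ v2 ≠ 0) →
  ∀ (x : ZMod (3 ^ r)) (y : ZMod (3 ^ s)) (a b c d : ℤ), PlT a b c d x y →
  edgeT u1 u2 v1 v2 G x y = G (a * u1 + 3 * b * u2) (3 * c * u1 + d * u2) -
    G (a * v1 + 3 * b * v2) (3 * c * v1 + d * v2)

end Pool.Agent.Helper93.TH3
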