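import Pool.Agent.Helper93.TH3.StD
import Pool.Agent.Helper93.TLH.GenN

/-!
# Project TH (levels `2·3^n`): the rows of the Hecke operators `T_5`, `T_7`, `T_13`
-/

set_option autoImplicit false
set_option maxRecDepth 100000

namespace Pool.Agent.Helper93.TH3

open Pool.Agent.Helper14.CV (Homog EqC act Tl)
open Pool.Agent.Helper78.W3 (tr Fn3 Tm opL op3 S3Trm)
open Pool.Agent.Helper93.TLH (HTy SymH B4 ChkN row_of_chkN)

private theorem opL_apply3 (L : List Tm) {q q' : ℕ} (F : Fn3 q q') (x : ZMod q) (y : ZMod q') :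
    opL L F x y = (L.map fun t => t.1 • tr t.2.1 t.2.2.1 t.2.2.2.1 t.2.2.2.2 F x y).sum := by
  induction L with
  | nil => simp [opL]
  | cons t L ih =>
    have e : opL (t :: L) F x y = (((t.1 : ℤ) : ZMod 3) • op3 t.2.1 t.2.2.1 t.2.2.2.1 t.2.2.2.2) F x y +
        opL L F x y := by
      simp [opL]
    rw [e, ih, List.map_cons, List.sum_cons, zsmul_eq_mul]
    rfl

/-- The five lists of a row with their basic paths. -/
def ttT (T : Fin 5 → List Tm) : List (B4 × Tm) :=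
  ((T 0).map fun t => (bsT 0, t)) ++ ((T 1).map fun t => (bsT 1, t)) ++
    ((T 2).map fun t => (bsT 2, t)) ++ ((T 3).map fun t => (bsT 3, t)) ++
    ((T 4).map fun t => (bsT 4, t))

/-- A row of `T_l` from the check. -/
theorem row3 (hf : THkF) (ht : TTre) (hm : S3Trm) (l : ℕ) (hl : l.Prime) (hl3 : l ≠ 3) (hl2 : l ≠ 2)
    (J : List ℤ) (hJn : J.Nodup) (hJl : J.length = l)
    (hJd : ∀ j ∈ J, ∀ j' ∈ J, (l : ℤ) ∣ j - j' → j = j') (T : Fin 5 → List Tm)
    (u1 u2 v1 v2 : ℤ) (hu : u1 ≠ 0 ∨ u2 ≠ 0) (hv : v1 ≠ 0 ∨ v2 ≠ 0)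
    (hc : ChkN 3 3 l J u1 u2 v1 v2 (ttT T))
    (r s : ℕ) (G : ℤ → ℤ → ZMod 3) (hG : SymH 3 (r + 1) (s + 1) G) :
    (edgeT u1 u2 v1 v2 (Tl l (3 ^ (r + 1)) G) : Fn3 (3 ^ r) (3 ^ s)) =
      ∑ f : Fin 5, opL (T f) (pfT G f) := by
  funext x y
  have hl0 : (l : ℤ) ≠ 0 := by exact_mod_cast hl.ne_zero
  have hpl : ¬ (3 : ℤ) ∣ (l : ℤ) := by
    intro h
    have h' : (3 : ℕ) ∣ l := by exact_mod_cast h
    exact hl3 (((Nat.prime_dvd_prime_iff_eq Nat.prime_three hl).1 h').symm)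
  have hF := hf (ZMod 3) inferInstance r s l G J.toFinset hl hl3 hl2 hG
    (by rw [List.toFinset_card_of_nodup hJn, hJl])
    (fun j hj j' hj' => hJd j (List.mem_toFinset.1 hj) j' (List.mem_toFinset.1 hj'))
    u1 u2 v1 v2 hu hv x y
  rw [List.sum_toFinset _ hJn] at hF
  have key := row_of_chkN (R := ZMod 3) (X := ZMod (3 ^ r) × ZMod (3 ^ s)) 3 3 3 l hl0
    (by norm_num) hpl (by norm_num) (by norm_num) J
    (fun a b c d F z => tr a b c d (fun x y => F (x, y)) z.1 z.2)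
    (fun a b c d => ⟨fun z => (((b : ZMod (3 ^ r)) + d * z.1) * ((a : ZMod (3 ^ r)) + 9 * c * z.1)⁻¹,
      ((c : ZMod (3 ^ s)) + a * z.2) * ((d : ZMod (3 ^ s)) + 9 * b * z.2)⁻¹), fun F z => rfl⟩)
    (fun F a b c d a' b' c' d' ha hd ha' hd' => by
      funext z
      have h := (hm (ZMod 3) r s (fun x y => F (x, y))).1 a b c d a' b' c' d' ha hd ha' hd'
      have h9 : (3 : ℤ) * 3 = 9 := by norm_num
      rw [h9]
      exact congrFun (congrFun h z.1) z.2)
    (fun u1 u2 v1 v2 z => edgeT u1 u2 v1 v2 G z.1 z.2) G hG.1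
    (fun z => ⟨1, 1, 3 * (z.1.val : ℤ), 3 * yT z.1 z.2,
      1 + 9 * (z.1.val : ℤ) * yT z.1 z.2, by
        have : (1 : ℤ) * (1 + 9 * (z.1.val : ℤ) * yT z.1 z.2) -
          3 * (z.1.val : ℤ) * (3 * yT z.1 z.2) = 1 := by ring
        rw [this]; exact one_ne_zero,
      fun u1 u2 v1 v2 => by
        unfold edgeT
        simp only [one_mul, one_smul]⟩)
    (fun a b c d u1 u2 v1 v2 hd hu hv z =>
      ht (ZMod 3) inferInstance r s G hG a b c d u1 u2 v1 v2 hd hu hv z.1 z.2)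
    u1 u2 v1 v2 (ttT T) hc (edgeT u1 u2 v1 v2 (Tl l (3 ^ (r + 1)) G) x y) (x, y) (by
      rw [hF])
  rw [key]
  rw [Fin.sum_univ_five]
  show _ = opL (T 0) (pfT G 0) x y + opL (T 1) (pfT G 1) x y + opL (T 2) (pfT G 2) x y +
    opL (T 3) (pfT G 3) x y + opL (T 4) (pfT G 4) x y
  simp only [opL_apply3]
  unfold ttT
  simp only [List.map_append, List.sum_append, List.map_map]
  rfl

/-- Residues. -/
def rsT (n : ℕ) : List ℤ := (List.range (2 * n + 1)).map fun k => (k : ℤ) - n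

/-- HK5. -/
theorem hHk5 (hf : THkF) (ht : TTre) (hm : S3Trm) : THk 5 T5T := by
  intro r s G hG i
  have hc : ∀ i : Fin 5, ChkN 3 3 5 (rsT 2) (bsT i).1 (bsT i).2.1 (bsT i).2.2.1 (bsT i).2.2.2
      (ttT (T5T i)) := by decide +kernel
  exact row3 hf ht hm 5 (by norm_num) (by norm_num) (by norm_num) (rsT 2) (by decide +kernel) rfl
    (by decide +kernel) (T5T i) _ _ _ _ (by fin_cases i <;> decide) (by fin_cases i <;> decide) (hc i) r s G hG

/-- HK7. -/
theorem hHk7 (hf : THkF) (ht : TTre) (hm : S3Trm) : THk 7 T7T := by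
  intro r s G hG i
  have hc : ∀ i : Fin 5, ChkN 3 3 7 (rsT 3) (bsT i).1 (bsT i).2.1 (bsT i).2.2.1 (bsT i).2.2.2
      (ttT (T7T i)) := by decide +kernel
  exact row3 hf ht hm 7 (by norm_num) (by norm_num) (by norm_num) (rsT 3) (by decide +kernel) rfl
    (by decide +kernel) (T7T i) _ _ _ _ (by fin_cases i <;> decide) (by fin_cases i <;> decide) (hc i) r s G hG

/-- HK13. -/
theorem hHk13 (hf : THkF) (ht : TTre) (hm : S3Trm) : THk 13 T13T := by
  intro r s G hG i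
  have hc : ∀ i : Fin 5, ChkN 3 3 13 (rsT 6) (bsT i).1 (bsT i).2.1 (bsT i).2.2.1 (bsT i).2.2.2
      (ttT (T13T i)) := by decide +kernel
  exact row3 hf ht hm 13 (by norm_num) (by norm_num) (by norm_num) (rsT 6) (by decide +kernel) rfl
    (by decide +kernel) (T13T i) _ _ _ _ (by fin_cases i <;> decide) (by fin_cases i <;> decide) (hc i) r s G hG

end Pool.Agent.Helper93.TH3
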