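import Pool.Agent.Helper93.TH3.M_Hk

/-!
# Project TH (levels `2·3^n`): the rows of the Hecke operator `T_31`
-/

set_option autoImplicit false
set_option maxRecDepth 100000

namespace Pool.Agent.Helper93.TH3

open Pool.Agent.Helper14.CV (Homog EqC act Tl)
open Pool.Agent.Helper78.W3 (tr Fn3 Tm opL op3 S3Trm)
open Pool.Agent.Helper93.TLH (HTy SymH B4 ChkN row_of_chkN)

/-- HK31. -/
theorem hHk31 (hf : THkF) (ht : TTre) (hm : S3Trm) : THk 31 T31T := by
  intro r s G hG i
  have hc : ∀ i : Fin 5, ChkN 3 3 31 (rsT 15) (bsT i).1 (bsT i).2.1 (bsT i).2.2.1 (bsT i).2.2.2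
      (ttT (T31T i)) := by decide +kernel
  exact row3 hf ht hm 31 (by norm_num) (by norm_num) (by norm_num) (rsT 15) (by decide +kernel) rfl
    (by decide +kernel) (T31T i) _ _ _ _ (by fin_cases i <;> decide) (by fin_cases i <;> decide) (hc i) r s G hG

end Pool.Agent.Helper93.TH3
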