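import Pool.Agent.Helper93.TH3.M_CertA
import Pool.Agent.Helper93.TH3.M_CertV
import Pool.Agent.Helper93.TH3.M_Hk
import Pool.Agent.Helper93.TH3.M_Hk31
import Pool.Agent.Helper93.TH3.M_Edg
import Pool.Agent.Helper36.TH3.M_Tre
import Pool.Agent.Helper51.TH3.M_Rel
import Pool.Agent.Helper66.TH3.M_ExA
import Pool.Agent.Helper2.TH3.M_ExB
import Pool.Agent.Helper53.TH3.M_Uni
import Pool.Agent.Helper8.TH3.M_HkB
import Pool.Agent.Helper73.TH3.M_HkF
import Pool.Agent.Helper47.TH3.M_Rll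
import Pool.Agent.Helper75.TH3.M_Spl
import Pool.Agent.Helper55.TH3.M_Lwt
import Pool.Agent.Helper22.TH3.M_LdU
import Pool.Agent.Helper80.TH3.M_LdV
import Pool.Agent.Helper94.TH3.M_LdA
import Pool.Agent.Helper88.TH3.M_Ld5
import Pool.Agent.Helper89.TH3.M_Sur
import Pool.Agent.Helper44.TH3.M_Led
import Pool.Agent.Helper41.TH3.M_Leo
import Pool.Agent.Helper60.TH3.M_Itr
import Pool.Agent.Helper33.TH3.M_Tri
import Pool.Agent.Helper99.TH3.M_Lifp
import Pool.Agent.Helper61.TH3.M_Lif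
import Pool.Agent.Helper81.TH3.M_Unb
import Pool.Agent.Helper62.TH3.M_Cnt
import Pool.Agent.Helper72.TH3.M_LBof
import Pool.Agent.Helper85.TLH.M_Hk
import Pool.Agent.Helper36.TLH.M_HkS
import Pool.Agent.Helper38.CV.M_Far
import Pool.Agent.Helper55.CV.M_Fex
import Pool.Agent.Helper98.W3.M_PlA
import Pool.Agent.Helper78.W3.M_Trm
import Pool.Agent.Helper29.W3.M_Low0
import Pool.Agent.Helper86.W3.M_Prd
import Pool.Agent.Helper16.W3.M_SubA
import Pool.Agent.Helper25.W3.M_SubB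
import Pool.Agent.Helper6.W3.M_Nf
import Pool.Agent.Helper24.W3.M_Exp
import Pool.Agent.Helper37.W3.M_Lw1
import Pool.Agent.Helper99.W3.M_Bb

/-!
# Project TH: the lower bound for levels `2·3^n`, `W_2 = +1`
-/

set_option autoImplicit false

namespace Pool.Agent.Helper93.TH3

open Pool.Agent.Helper78.W3 (S3PlA S3Trm S3Low0 S3Nf S3Exp S3Lw1 S3Bb)
open Pool.Agent.Helper93.TLH (LBH SHHk)

theorem plT : TPlT := hPlT Pool.Agent.Helper98.W3.hPlA

theorem trm : S3Trm := Pool.Agent.Helper78.W3.hTrm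

theorem edgT : TEdg := hEdg0 plT

theorem treT : TTre := Pool.Agent.Helper36.TH3.hTre edgT plT

theorem relT' : TRel := Pool.Agent.Helper51.TH3.hRel treT

theorem exT : TEx := hEx (Pool.Agent.Helper66.TH3.hExA trm)
  (Pool.Agent.Helper2.TH3.hExB plT Pool.Agent.Helper55.CV.hFex Pool.Agent.Helper38.CV.hFar)

theorem uniT : TUni := Pool.Agent.Helper53.TH3.hUni edgT plT Pool.Agent.Helper38.CV.hFar

theorem solT' : TSol := Pool.Agent.Helper47.TH3.hSol trm

theorem lifpT : TLifp := Pool.Agent.Helper99.TH3.hLifp trm solT'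

theorem lifT : TLif := Pool.Agent.Helper61.TH3.hLif relT' lifpT exT uniT

theorem hkhT : SHHk := Pool.Agent.Helper85.TLH.hHk

theorem hkBT : THkB := Pool.Agent.Helper8.TH3.hHkB hkhT (Pool.Agent.Helper36.TLH.hHkS hkhT)

theorem hkFT : THkF := Pool.Agent.Helper73.TH3.hHkF hkBT edgT plT

theorem triT : TTri := by
  have low0 := Pool.Agent.Helper29.W3.hLow0
  have prd := Pool.Agent.Helper86.W3.hPrd low0
  have subA := Pool.Agent.Helper16.W3.hSubA low0 prd
  have subB := Pool.Agent.Helper25.W3.hSubB low0 prd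
  have nf := Pool.Agent.Helper6.W3.hNf low0 subA subB
  have exp := Pool.Agent.Helper24.W3.hExp low0 nf
  have lw1 := Pool.Agent.Helper37.W3.hLw1 low0 nf exp
  have bb := Pool.Agent.Helper99.W3.hBb low0
  have lwt := Pool.Agent.Helper55.TH3.hLwt trm low0 nf lw1 bb
  have rll := Pool.Agent.Helper47.TH3.hRll trm
  have spl := Pool.Agent.Helper75.TH3.hSpl trm
  have hk5 := hHk5 hkFT treT trm
  have hk7 := hHk7 hkFT treT trm
  have hk13 := hHk13 hkFT treT trm
  have hk31 := hHk31 hkFT treT trm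
  have ldU := Pool.Agent.Helper22.TH3.hLdU trm low0 exp lw1 spl rll hCeG hCeU
  have ldV := Pool.Agent.Helper80.TH3.hLdV trm low0 exp lw1 spl rll hCeG hCeV
  have ldA := Pool.Agent.Helper94.TH3.hLdA trm low0 exp lw1 spl rll hCeG hCeA lwt
  have ld5 := Pool.Agent.Helper88.TH3.hLd5 trm low0 exp lw1 spl rll hCeG hCe5 lwt
  have sur := Pool.Agent.Helper89.TH3.hSur trm low0 lw1 lwt bb
  have led := Pool.Agent.Helper44.TH3.hLed trm low0 lw1 lwt bb solT' sur
  have leo := Pool.Agent.Helper41.TH3.hLeo trm low0 lw1 lwt bb solT' sur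
  have itr := Pool.Agent.Helper60.TH3.hItr relT' hkBT hk5 hk7 hk13 hk31 trm low0 hCeG ldU ldV ldA ld5
  exact Pool.Agent.Helper33.TH3.hTri low0 bb led leo exT itr

theorem cntT : TCnt := Pool.Agent.Helper62.TH3.hCnt

/-- The lower bound for levels `2·3^n`. -/
theorem lb3 : LBH 3 1 ddH3 :=
  Pool.Agent.Helper72.TH3.hLBof triT lifT Pool.Agent.Helper81.TH3.hUnb cntT

end Pool.Agent.Helper93.TH3
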