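import Pool.Agent.Helper93.TH3.StD

/-!
# Project TH (levels `2·3^n`): certificates
-/

set_option autoImplicit false
set_option maxRecDepth 100000

namespace Pool.Agent.Helper93.TH3

theorem hCeG : TCeG := by unfold TCeG; decide +kernel

theorem hCeU : TCeU := by unfold TCeU; decide +kernel

theorem hCeA : TCeA := by unfold TCeA; decide +kernel

theorem hCe5 : TCe5 := by unfold TCe5; decide +kernel

end Pool.Agent.Helper93.TH3
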